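import Mathlib

/-! Five pairwise proportional vectors of polynomials satisfying degree bounds are dependent. -/

set_option autoImplicit false

open MvPolynomial

namespace Pool.Agent.H953R2.QT

variable {k : Type} [Field k]

/-- the affine coordinates `1, X_0, X_1, X_2` -/
noncomputable def YY : Fin 4 → MvPolynomial (Fin 3) k := ![1, X 0, X 1, X 2]

lemma totalDegree_of_mul {f g : MvPolynomial (Fin 3) k} (hf : f ≠ 0) (hg : g ≠ 0) {n : ℕ}
    (h : (f * g).totalDegree ≤ n) : f.totalDegree + g.totalDegree ≤ n := by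
  rwa [totalDegree_mul_of_isDomain hf hg] at h

/-- division by a primitive vector -/
lemma exists_prim {ι : Type} [Fintype ι] {A : Type} [CommRing A] [IsDomain A]
    [UniqueFactorizationMonoid A] (P : ι → A) (i0 : ι) (hP : P i0 ≠ 0) :
    ∃ h : ι → A, h i0 ≠ 0 ∧ (∃ d, ∀ i, P i = d * h i) ∧
      ∀ Q : ι → A, (∀ i j, Q i * P j = Q j * P i) → ∃ g, ∀ i, Q i = g * h i := by
  classical
  obtain ⟨_⟩ : Nonempty (NormalizedGCDMonoid A) := inferInstance
  obtain ⟨h, h1, h2⟩ := Finset.extract_gcd P (s := Finset.univ) ⟨i0, Finset.mem_univ _⟩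
  set d := Finset.univ.gcd P with hd
  have hi0 : h i0 ≠ 0 := by
    intro h3
    rw [h1 i0 (Finset.mem_univ _), h3, mul_zero] at hP
    exact hP rfl
  have hd0 : d ≠ 0 := by
    intro h3
    rw [h1 i0 (Finset.mem_univ _), h3, zero_mul] at hP
    exact hP rfl
  refine ⟨h, hi0, ⟨d, fun i => h1 i (Finset.mem_univ _)⟩, fun Q hQ => ?_⟩
  have hQ' : ∀ i j, Q i * h j = Q j * h i := by
    intro i j
    have h4 := hQ i j
    rw [h1 i (Finset.mem_univ _), h1 j (Finset.mem_univ _)] at h4
    apply mul_left_cancel₀ hd0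
    linear_combination h4
  have h5 : h i0 ∣ Q i0 := by
    have h6 : h i0 ∣ Finset.univ.gcd (fun j => Q i0 * h j) := by
      apply Finset.dvd_gcd
      intro j _
      rw [hQ' i0 j]
      exact dvd_mul_left _ _
    have h7 := (Finset.gcd_mul_left' Finset.univ h (Q i0)).dvd
    rw [h2, mul_one] at h7
    exact h6.trans h7
  obtain ⟨g, hg⟩ := h5
  refine ⟨g, fun i => ?_⟩
  apply mul_right_cancel₀ hi0
  rw [hQ' i i0, hg]
  ring

lemma ne_zero_of_degree {f : MvPolynomial (Fin 3) k} (h : 1 ≤ f.totalDegree) : f ≠ 0 := by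
  rintro rfl
  simp at h

/-- affine linear polynomials -/
lemma exists_dep (g : Fin 5 → MvPolynomial (Fin 3) k) (hg : ∀ m, (g m).totalDegree ≤ 1) :
    ∃ c : Fin 5 → k, c ≠ 0 ∧ ∑ m, C (c m) * g m = 0 := by
  classical
  let s : Fin 4 → (Fin 3 →₀ ℕ) := ![0, Finsupp.single 0 1, Finsupp.single 1 1, Finsupp.single 2 1]
  let M : Matrix (Fin 4) (Fin 5) k := fun j m => coeff (s j) (g m)
  have h1 : LinearMap.ker M.mulVecLin ≠ ⊥ := LinearMap.ker_ne_bot_of_finrank_lt (by simp)
  obtain ⟨c, hc, hc0⟩ := (Submodule.ne_bot_iff _).1 h1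
  refine ⟨c, hc0, ?_⟩
  have h2 : ∀ j, ∑ m, c m * coeff (s j) (g m) = 0 := by
    intro j
    have h3 := congrFun (LinearMap.mem_ker.1 hc) j
    rw [Matrix.mulVecLin_apply, Matrix.mulVec, dotProduct] at h3
    refine Eq.trans ?_ h3
    exact Finset.sum_congr rfl fun m _ => mul_comm _ _
  ext e
  rw [coeff_sum, coeff_zero]
  simp only [coeff_C_mul]
  by_cases he : ∃ j, e = s j
  · obtain ⟨j, rfl⟩ := he
    exact h2 j
  · apply Finset.sum_eq_zero
    intro m _
    have h4 : coeff e (g m) = 0 := by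
      by_contra h5
      have h6 := le_totalDegree (mem_support_iff.2 h5)
      have h7 := h6.trans (hg m)
      apply he
      rw [Finsupp.sum_fintype _ _ (fun _ => rfl), Fin.sum_univ_three] at h7
      have h8 : (e 0 = 0 ∧ e 1 = 0 ∧ e 2 = 0) ∨ (e 0 = 1 ∧ e 1 = 0 ∧ e 2 = 0) ∨
        (e 0 = 0 ∧ e 1 = 1 ∧ e 2 = 0) ∨ (e 0 = 0 ∧ e 1 = 0 ∧ e 2 = 1) := by omega
      rcases h8 with ⟨a, b, c⟩ | ⟨a, b, c⟩ | ⟨a, b, c⟩ | ⟨a, b, c⟩
      · refine ⟨0, ?_⟩
        ext i
        fin_cases i <;> simp [s, a, b, c]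
      · refine ⟨1, ?_⟩
        ext i
        fin_cases i <;> simp [s, a, b, c]
      · refine ⟨2, ?_⟩
        ext i
        fin_cases i <;> simp [s, a, b, c]
      · refine ⟨3, ?_⟩
        ext i
        fin_cases i <;> simp [s, a, b, c]
    rw [h4, mul_zero]

/-- The main algebraic lemma. -/
lemma exists_relation (P : Fin 5 → Fin 4 → MvPolynomial (Fin 3) k) (h0 : ∀ m, P m 0 = 0)
    (hd : ∀ m a, (X 0 * P m a - YY a * P m 1).totalDegree ≤ 2)
    (hp : ∀ m n a b, P m a * P n b = P m b * P n a) :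
    ∃ c : Fin 5 → k, c ≠ 0 ∧ ∀ a, ∑ m, C (c m) * P m a = 0 := by
  classical
  by_cases hz : ∀ m a, P m a = 0
  · refine ⟨fun _ => 1, fun h => one_ne_zero (congrFun h 0), fun a => ?_⟩
    simp [hz]
  push Not at hz
  obtain ⟨m0, a0, hm0⟩ := hz
  obtain ⟨h, ha0, ⟨d, hdh⟩, hQ⟩ := exists_prim (P m0) a0 hm0
  have hg : ∀ m, ∃ g, ∀ i, P m i = g * h i := fun m => hQ (P m) (fun i j => by
    rw [hp m m0 i j])
  choose g hg using hg
  -- a nonconstant polynomial
  have hh0 : h 0 = 0 := by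
    have h1 := hdh 0
    rw [h0] at h1
    rcases mul_eq_zero.1 h1.symm with h2 | h2
    · exact absurd (by rw [hdh a0, h2, zero_mul]) hm0
    · exact h2
  have hR : ∃ a, 1 ≤ (X 0 * h a - YY a * h 1).totalDegree := by
    by_contra hcon
    push Not at hcon
    have h1 : (h 1).totalDegree = 0 := by
      have := hcon 0
      rw [hh0, mul_zero, zero_sub, totalDegree_neg] at this
      simp only [YY, Matrix.cons_val_zero, one_mul] at this
      omega
    have h2 := (totalDegree_eq_zero_iff_eq_C).1 h1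
    set r := coeff 0 (h 1) with hr
    by_cases hr0 : r = 0
    · have h3 : h 1 = 0 := by rw [h2, hr0, C_0]
      have h4 := hcon a0
      rw [h3, mul_zero, sub_zero, totalDegree_mul_of_isDomain (X_ne_zero _) ha0,
        totalDegree_X] at h4
      omega
    · have h4 := hcon 2
      have h5 := (totalDegree_eq_zero_iff_eq_C).1 (Nat.lt_one_iff.1 h4)
      have h6 := congrArg (coeff (Finsupp.single 1 1)) h5
      have h7 : coeff (Finsupp.single 1 1) (X 0 * h 2) = 0 := by
        rw [coeff_X_mul']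
        rw [if_neg]
        simp
      have h8 : coeff (Finsupp.single 1 1) (YY 2 * h 1) = r := by
        rw [h2]
        change coeff (Finsupp.single 1 1) (X 1 * C r) = r
        rw [mul_comm, coeff_C_mul, coeff_X, if_pos rfl, mul_one]
      rw [coeff_sub, h7, h8, zero_sub, coeff_C, if_neg] at h6
      · exact hr0 (neg_eq_zero.1 h6)
      · intro h9
        have := congrArg (fun e => e 1) h9
        simp at this
  obtain ⟨a, ha⟩ := hR
  have hg1 : ∀ m, (g m).totalDegree ≤ 1 := by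
    intro m
    by_cases hm : g m = 0
    · rw [hm]; simp
    · have h1 := hd m a
      rw [hg m a, hg m 1, show X 0 * (g m * h a) - YY a * (g m * h 1) =
        g m * (X 0 * h a - YY a * h 1) by ring] at h1
      have h2 := totalDegree_of_mul hm (ne_zero_of_degree ha) h1
      omega
  obtain ⟨c, hc, hs⟩ := exists_dep g hg1
  refine ⟨c, hc, fun a => ?_⟩
  rw [← zero_mul (h a), ← hs, Finset.sum_mul]
  refine Finset.sum_congr rfl fun m _ => ?_
  rw [hg m a]
  ring

end Pool.Agent.H953R2.QT
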