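import Pool.Agent.H953R2.QT.Field

/-! The line bundle `O(1)` on the quadric is ample and maps to the tangent sheaf. -/

set_option autoImplicit false

open AlgebraicGeometry CategoryTheory TopologicalSpace Opposite MvPolynomial
open Pool.Agent.Helper198.Sch

namespace Pool.Agent.H953R2.QT

attribute [local instance] MvPolynomial.gradedAlgebra

noncomputable section

section bundle

variable (k : Type) [Field k]

lemma exists_D (x : QX k) : ∃ i : Fin 4, x ∈ V.D (QJ k) i.succ := by
  obtain ⟨i, hi⟩ := exists_lab k x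
  rw [lab_c] at hi
  exact ⟨i, hi⟩

/-- The line bundle `O(1)` on the quadric. -/
def O1 : LineBundle (QX k) where
  ι := Fin 4
  U i := V.D (QJ k) i.succ
  covers := exists_D k
  g i j := QT.res inf_le_left (fr (QJ k) i.succ j.succ)
  self i := by rw [fr_self, map_one]
  cocycle i j l W hi hj hl := by
    have h := res_fr_mul (QJ k) i.succ j.succ l.succ W hi hj
    exact h

/-- the section `x_m` of `O(1)` -/
def secO1 (m : Fin 5) : (O1 k).PowSection 1 where
  s i := fr (QJ k) i.succ m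
  compat i j W hi hj := by
    have h := res_fr_mul (QJ k) i.succ j.succ m W hi hj
    rw [pow_one]
    exact h.symm

lemma nonvanishing_secO1 (m : Fin 5) : (secO1 k m).nonvanishing = V.D (QJ k) m := by
  unfold LineBundle.PowSection.nonvanishing
  apply le_antisymm
  · apply iSup_le
    intro i
    change (QX k).basicOpen (fr (QJ k) (Fin.succ i) m) ≤ _
    rw [basicOpen_fr]
    exact inf_le_right
  · intro x hx
    obtain ⟨i, hi⟩ := exists_D k x
    rw [Opens.mem_iSup]
    refine ⟨i, ?_⟩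
    change x ∈ (QX k).basicOpen (fr (QJ k) (Fin.succ i) m)
    rw [basicOpen_fr]
    exact ⟨hi, hx⟩

lemma isAffineOpen_D (m : Fin 5) : IsAffineOpen (V.D (QJ k) m) :=
  Proj.isAffineOpen_basicOpen (qgrad (QJ k).toIdeal) (gen (QJ k) m) (gen_mem (QJ k) m) one_pos

lemma compact_QX : CompactSpace (QX k) := by
  have h : (⊤ : (QX k).Opens) = ⨆ i : Fin 4, V.D (QJ k) i.succ := by
    apply le_antisymm _ le_top
    intro x _
    obtain ⟨i, hi⟩ := exists_D k x
    exact Opens.mem_iSup.2 ⟨i, hi⟩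
  have h2 : IsCompact ((⊤ : (QX k).Opens) : Set (QX k)) := by
    rw [h, Opens.coe_iSup]
    exact isCompact_iUnion fun i => (isAffineOpen_D k i.succ).isCompact
  exact ⟨h2⟩

lemma ample_O1 : (O1 k).IsAmple := by
  refine ⟨compact_QX k, fun x => ?_⟩
  obtain ⟨i, hi⟩ := exists_D k x
  refine ⟨1, secO1 k i.succ, one_pos, ?_, ?_⟩
  · rw [nonvanishing_secO1]; exact hi
  · rw [nonvanishing_secO1]; exact isAffineOpen_D k _

variable [CharP k 2]

/-- the map `O(1) → T` -/
def tm : TangentMap (V.str (QJ k)) (O1 k) where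
  v i := vf k i.succ (V.D (QJ k) i.succ)
  compat i j W hi hj a := by
    have h := vf_rel k i.succ j.succ (V.D (QJ k) j.succ) (V.D (QJ k) i.succ) W hi hj hi a
    exact h

lemma nonempty_D (i : Fin 4) : (V.D (QJ k) i.succ : Set (QX k)).Nonempty := by
  refine ⟨V.chart (QJ k) (lab i).c ⟨⊥, Ideal.isPrime_bot⟩, ?_⟩
  change _ ∈ V.D (QJ k) i.succ
  rw [← lab_c, V.chart_mem_D]
  exact fun h => frac_ne_zero k i i ((Ideal.mem_bot).1 h)

lemma nontrivial_Reg {X : Scheme.{0}} (U : X.Opens) (h : (U : Set X).Nonempty) :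
    Nontrivial (Reg X U) := by
  obtain ⟨x, hx⟩ := h
  exact (X.presheaf.germ U x hx).hom.domain_nontrivial

lemma tm_nonzero : (tm k).IsNonzero := by
  refine ⟨(0 : Fin 4), V.D (QJ k) (Fin.succ (0 : Fin 4)), le_rfl,
    fr (QJ k) (Fin.succ (0 : Fin 4)) 0, ?_⟩
  have h := vf_fr_zero k (Fin.succ (0 : Fin 4)) (Fin.succ (0 : Fin 4)) (Fin.succ_ne_zero _)
    (V.D (QJ k) (Fin.succ (0 : Fin 4))) le_rfl
  intro h0
  have h1 : fr (QJ k) (Fin.succ (0 : Fin 4)) (Fin.succ (0 : Fin 4)) = 0 := h.symm.trans h0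
  rw [fr_self] at h1
  haveI := nontrivial_Reg _ (nonempty_D k 0)
  exact one_ne_zero h1

end bundle

end

end Pool.Agent.H953R2.QT
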