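import Pool.Agent.H953R2.QT.Line

/-! Constants on the charts. -/

set_option autoImplicit false

open AlgebraicGeometry CategoryTheory TopologicalSpace Opposite MvPolynomial
open Pool.Agent.Helper198.Sch

namespace Pool.Agent.H953R2.QT

attribute [local instance] MvPolynomial.gradedAlgebra

noncomputable section

variable {σ k : Type} [Field k]

lemma const_aux {X : Scheme.{0}} (p : X ⟶ Spec (CommRingCat.of k)) (U : X.Opens)
    (B : CommRingCat.{0}) (g : U.toScheme ⟶ Spec B) (φ : CommRingCat.of k ⟶ B) (a : B ⟶ Γ(X, U))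
    (hg : g.appTop = (Scheme.ΓSpecIso B).hom ≫ a ≫ U.topIso.inv)
    (h : U.ι ≫ p = g ≫ Spec.map φ) (r : k) : const p U r = a.hom (φ.hom r) := by
  have h1 := congrArg Scheme.Hom.appTop h
  rw [Scheme.Hom.comp_appTop, Scheme.Hom.comp_appTop] at h1
  have h3 : p.appLE ⊤ U le_top = (p.appTop ≫ U.ι.appTop) ≫ U.topIso.hom := by
    rw [Scheme.Opens.ι_appTop, Category.assoc]
    unfold Scheme.Hom.appLE
    congr 1
    rw [Scheme.Opens.topIso_hom]
    refine Eq.trans ?_ (X.presheaf.map_comp _ _)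
    rfl
  have h4 : p.appLE ⊤ U le_top = (Scheme.ΓSpecIso (CommRingCat.of k)).hom ≫ φ ≫ a := by
    rw [h3, h1, hg, Category.assoc, Category.assoc, Category.assoc, Iso.inv_hom_id,
      Category.comp_id, Scheme.ΓSpecIso_naturality_assoc]
  unfold const
  rw [RingHom.comp_apply, h4]
  simp only [CommRingCat.hom_comp, RingHom.comp_apply]
  have h6 : (Scheme.ΓSpecIso (CommRingCat.of k)).hom.hom
      ((Scheme.ΓSpecIso (CommRingCat.of k)).inv.hom r) = r := by
    rw [← RingHom.comp_apply, ← CommRingCat.hom_comp, Iso.inv_hom_id]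
    rfl
  rw [h6]

lemma ι_chart (J : HI σ k) (c : σ) : (V.D J c).ι =
    Proj.basicOpenToSpec (qgrad J.toIdeal) (gen J c) ≫ V.chart J c := by
  symm
  rw [← Proj.basicOpenIsoSpec_hom (qgrad J.toIdeal) (gen J c) (gen_mem J c) one_pos]
  exact Iso.hom_inv_id_assoc (Proj.basicOpenIsoSpec (qgrad J.toIdeal) (gen J c) (gen_mem J c)
    one_pos) (V.D J c).ι

lemma ι_str (J : HI σ k) (c : σ) : (V.D J c).ι ≫ V.str J =
    Proj.basicOpenToSpec (qgrad J.toIdeal) (gen J c) ≫
      Spec.map (CommRingCat.ofHom (algebraMap k (Ch J c))) := by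
  rw [ι_chart]
  refine (Category.assoc _ (V.chart J c) (V.str J)).trans ?_
  exact congrArg (fun t => Proj.basicOpenToSpec (qgrad J.toIdeal) (gen J c) ≫ t)
    (V.chart_str J c)

lemma const_D (J : HI σ k) (c : σ) (r : k) :
    const (V.str J) (V.D J c) r = chSec J c (algebraMap k (Ch J c) r) :=
  const_aux (V.str J) (V.D J c) (.of (Ch J c))
    (Proj.basicOpenToSpec (qgrad J.toIdeal) (gen J c))
    (CommRingCat.ofHom (algebraMap k (Ch J c))) (Proj.awayToSection (qgrad J.toIdeal) (gen J c))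
    (Proj.basicOpenToSpec_app_top (qgrad J.toIdeal) (gen J c)) (ι_str J c) r

lemma res_const {X : Scheme.{0}} (p : X ⟶ Spec (CommRingCat.of k)) {U W : X.Opens} (h : W ≤ U)
    (r : k) : QT.res h (const p U r) = const p W r := by
  unfold res const
  rw [RingHom.comp_apply, RingHom.comp_apply, ← RingHom.comp_apply, ← CommRingCat.hom_comp,
    Scheme.Hom.appLE_map]

lemma pv_chSec (J : HI σ k) (c : σ) (r : k) (x : V J) (hx : x ∈ V.D J c) :
    (pv (𝒜 := qgrad J.toIdeal) (chSec J c (algebraMap k (Ch J c) r)) x hx).val =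
      algebraMap _ _ (Ideal.Quotient.mk J.toIdeal (C r)) := by
  rw [← Localization.mk_one_eq_algebraMap]
  rfl

lemma pv_const (J : HI σ k) (W : (V J).Opens) (r : k) (x : V J) (hx : x ∈ W) :
    (pv (𝒜 := qgrad J.toIdeal) (const (V.str J) W r) x hx).val =
      algebraMap _ _ (Ideal.Quotient.mk J.toIdeal (C r)) := by
  obtain ⟨c, hc⟩ := V.exists_mem_D J x
  have h1 : (pv (𝒜 := qgrad J.toIdeal) (const (V.str J) W r) x hx).val =
    (pv (𝒜 := qgrad J.toIdeal) (QT.res (show W ⊓ V.D J c ≤ W from inf_le_left)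
      (const (V.str J) W r)) x ⟨hx, hc⟩).val := rfl
  have h2 : (pv (𝒜 := qgrad J.toIdeal) (const (V.str J) (V.D J c) r) x hc).val =
    (pv (𝒜 := qgrad J.toIdeal) (QT.res (show W ⊓ V.D J c ≤ V.D J c from inf_le_right)
      (const (V.str J) (V.D J c) r)) x ⟨hx, hc⟩).val := rfl
  rw [h1, res_const, ← res_const (V.str J) (show W ⊓ V.D J c ≤ V.D J c from inf_le_right), ← h2,
    const_D, pv_chSec]

end

end Pool.Agent.H953R2.QT
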