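import Mathlib

/-!
Ample line bundles, vector fields, and morphisms from a line bundle to the tangent sheaf, on
schemes over a field.
-/

set_option autoImplicit false

open AlgebraicGeometry CategoryTheory

namespace Pool.Agent.H953R2.QT

attribute [local instance] MvPolynomial.gradedAlgebra

noncomputable section

/-- The ring of regular functions on the open subset `U` of the scheme `X`. -/
abbrev Reg (X : Scheme.{0}) (U : X.Opens) : CommRingCat.{0} := Γ(X, U)

/-- Restriction of regular functions from `V` to a smaller open set `U`. -/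
def res {X : Scheme.{0}} {U V : X.Opens} (h : U ≤ V) : Reg X V →+* Reg X U :=
  (X.presheaf.map (homOfLE h).op).hom

/-- For a scheme `p : X ⟶ Spec k` over the field `k`: the elements of `k` as functions on the open
subset `U` of `X`. -/
def const {k : Type} [Field k] {X : Scheme.{0}} (p : X ⟶ Spec (CommRingCat.of k)) (U : X.Opens) :
    k →+* Reg X U :=
  (p.appLE ⊤ U le_top).hom.comp (Scheme.ΓSpecIso (CommRingCat.of k)).inv.hom

/-! ### Projective space -/

/-- Projective `n`-space over `k`: the scheme `Proj k[x_0, ..., x_n]`, polynomials graded by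
degree. -/
def PSpace (n : ℕ) (k : Type) [Field k] : Scheme.{0} :=
  Proj (MvPolynomial.homogeneousSubmodule (Fin (n + 1)) k)

/-- The structure morphism of projective `n`-space. -/
def PSpace.str (n : ℕ) (k : Type) [Field k] : PSpace n k ⟶ Spec (CommRingCat.of k) :=
  Proj.toSpecZero (MvPolynomial.homogeneousSubmodule (Fin (n + 1)) k) ≫
    Spec.map (CommRingCat.ofHom
      (algebraMap k (MvPolynomial.homogeneousSubmodule (Fin (n + 1)) k 0)))

/-- `p : X ⟶ Spec k` is a smooth projective irreducible variety of dimension `n`: `X` is integral,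
smooth of relative dimension `n` over `k`, and a closed subscheme of some projective space. -/
structure IsSmoothProjectiveVariety (n : ℕ) {k : Type} [Field k] {X : Scheme.{0}}
    (p : X ⟶ Spec (CommRingCat.of k)) : Prop where
  integral : IsIntegral X
  smooth : SmoothOfRelativeDimension n p
  projective : ∃ (N : ℕ) (i : X ⟶ PSpace N k), IsClosedImmersion i ∧ i ≫ PSpace.str N k = p

/-! ### Line bundles -/

/-- A line bundle (invertible sheaf) `L` on `X`, given by a trivialising open cover `U i` with local
generators `e i` and the transition functions `g i j` on `U i ∩ U j`, where `e j = g i j * e i`. -/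
structure LineBundle (X : Scheme.{0}) where
  ι : Type
  U : ι → X.Opens
  covers : ∀ x : X, ∃ i, x ∈ U i
  g : ∀ i j, Reg X (U i ⊓ U j)
  self : ∀ i, g i i = 1
  cocycle : ∀ (i j l : ι) (W : X.Opens) (hi : W ≤ U i) (hj : W ≤ U j) (hl : W ≤ U l),
    res (le_inf hi hj) (g i j) * res (le_inf hj hl) (g j l) = res (le_inf hi hl) (g i l)

/-- A global section of the tensor power `L^n`: functions `s i` on `U i` (the section is
`s i * (e i)^n` on `U i`) with `s i = (g i j)^n * s j` on overlaps. -/
structure LineBundle.PowSection {X : Scheme.{0}} (L : LineBundle X) (n : ℕ) where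
  s : ∀ i, Reg X (L.U i)
  compat : ∀ (i j : L.ι) (W : X.Opens) (hi : W ≤ L.U i) (hj : W ≤ L.U j),
    res hi (s i) = res (le_inf hi hj) (L.g i j) ^ n * res hj (s j)

/-- The open set `X_s` of the points at which the section `s` does not vanish. -/
def LineBundle.PowSection.nonvanishing {X : Scheme.{0}} {L : LineBundle X} {n : ℕ}
    (s : L.PowSection n) : X.Opens := ⨆ i, X.basicOpen (s.s i)

/-- `L` is ample: `X` is quasi-compact and every point of `X` has a neighbourhood of the form `X_s`
which is affine, for a section `s` of some power `L^n`, `n > 0`. -/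
def LineBundle.IsAmple {X : Scheme.{0}} (L : LineBundle X) : Prop :=
  CompactSpace X ∧ ∀ x : X, ∃ (n : ℕ) (s : L.PowSection n), 0 < n ∧
    x ∈ s.nonvanishing ∧ IsAffineOpen s.nonvanishing

/-! ### The tangent sheaf -/

/-- A section over the open set `U` of the tangent sheaf `T_X = Der_k(O_X, O_X)` of the `k`-scheme
`p : X ⟶ Spec k`: a derivation over `k` of the sheaf of rings `O_X` restricted to `U`. -/
structure VectorField {k : Type} [Field k] {X : Scheme.{0}} (p : X ⟶ Spec (CommRingCat.of k))
    (U : X.Opens) where
  D : ∀ V : X.Opens, V ≤ U → Reg X V → Reg X V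
  add : ∀ V h a b, D V h (a + b) = D V h a + D V h b
  leibniz : ∀ V h a b, D V h (a * b) = a * D V h b + b * D V h a
  const : ∀ V h (c : k), D V h (const p V c) = 0
  res : ∀ (V W : X.Opens) (h : V ≤ U) (hW : W ≤ V) (a : Reg X V),
    res hW (D V h a) = D W (hW.trans h) (res hW a)

/-- A morphism `φ : L → T_X` of sheaves of `O_X`-modules, given by the images `v i` in `T_X(U i)` of
the local generators `e i` of `L`; as `e j = g i j * e i`, one needs `v j = g i j * v i` on
overlaps. -/
structure TangentMap {k : Type} [Field k] {X : Scheme.{0}} (p : X ⟶ Spec (CommRingCat.of k))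
    (L : LineBundle X) where
  v : ∀ i : L.ι, VectorField p (L.U i)
  compat : ∀ (i j : L.ι) (W : X.Opens) (hi : W ≤ L.U i) (hj : W ≤ L.U j) (a : Reg X W),
    (v j).D W hj a = QT.res (le_inf hi hj) (L.g i j) * (v i).D W hi a

/-- The morphism `φ : L → T_X` is not zero. -/
def TangentMap.IsNonzero {k : Type} [Field k] {X : Scheme.{0}}
    {p : X ⟶ Spec (CommRingCat.of k)} {L : LineBundle X} (φ : TangentMap p L) : Prop :=
  ∃ (i : L.ι) (V : X.Opens) (h : V ≤ L.U i) (a : Reg X V), (φ.v i).D V h a ≠ 0

end

end Pool.Agent.H953R2.QT
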