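import Pool.Agent.H953R2.QT.Const

/-! The vector fields `x_m d/dx_0` on the quadric in characteristic two. -/

set_option autoImplicit false

open AlgebraicGeometry CategoryTheory TopologicalSpace Opposite MvPolynomial
open Pool.Agent.Helper198.Sch

namespace Pool.Agent.H953R2.QT

attribute [local instance] MvPolynomial.gradedAlgebra

noncomputable section

section der

variable (k : Type) [Field k] [CharP k 2]

/-- the homogeneous coordinate ring -/
abbrev QR : Type := MvPolynomial (Fin 5) k ⧸ (QJ k).toIdeal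

lemma pderiv_qq : pderiv (0 : Fin 5) (qq k) = 0 := by
  have h2 : (2 : MvPolynomial (Fin 5) k) = 0 := by
    have := CharP.cast_eq_zero (MvPolynomial (Fin 5) k) 2
    exact_mod_cast this
  unfold qq
  simp [Derivation.leibniz, Derivation.leibniz_pow, pderiv_X, h2]

lemma pderiv_key (f g : MvPolynomial (Fin 5) k)
    (h : Ideal.Quotient.mk (QJ k).toIdeal f = Ideal.Quotient.mk (QJ k).toIdeal g) :
    Ideal.Quotient.mk (QJ k).toIdeal (pderiv 0 f) =
      Ideal.Quotient.mk (QJ k).toIdeal (pderiv 0 g) := by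
  rw [Ideal.Quotient.eq, QJ_toIdeal, Ideal.mem_span_singleton] at h
  obtain ⟨e, he⟩ := h
  rw [Ideal.Quotient.eq, QJ_toIdeal, Ideal.mem_span_singleton, ← map_sub, he, Derivation.leibniz,
    pderiv_qq, smul_zero, add_zero, smul_eq_mul]
  exact ⟨_, rfl⟩

/-- `d/dx_0` on the homogeneous coordinate ring -/
def dq (z : QR k) : QR k := Ideal.Quotient.mk (QJ k).toIdeal (pderiv 0 (Quotient.out z))

lemma dq_mk (f : MvPolynomial (Fin 5) k) : dq k (Ideal.Quotient.mk (QJ k).toIdeal f) =
    Ideal.Quotient.mk (QJ k).toIdeal (pderiv 0 f) :=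
  pderiv_key k _ _ (Ideal.Quotient.mk_out _)

lemma dq_add (a b : QR k) : dq k (a + b) = dq k a + dq k b := by
  obtain ⟨f, rfl⟩ := Ideal.Quotient.mk_surjective a
  obtain ⟨g, rfl⟩ := Ideal.Quotient.mk_surjective b
  rw [← map_add, dq_mk, dq_mk, dq_mk, map_add, map_add]

lemma dq_mul (a b : QR k) : dq k (a * b) = a * dq k b + b * dq k a := by
  obtain ⟨f, rfl⟩ := Ideal.Quotient.mk_surjective a
  obtain ⟨g, rfl⟩ := Ideal.Quotient.mk_surjective b
  rw [← map_mul, dq_mk, dq_mk, dq_mk, Derivation.leibniz, smul_eq_mul, smul_eq_mul, map_add,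
    map_mul, map_mul]

/-- `d/dx_0` as a derivation -/
def dqDer : Der (QR k) where
  d := dq k
  add := dq_add k
  mul := dq_mul k

/-- `x_m d/dx_0` as a degree preserving derivation -/
def del (m : Fin 5) : GDer (qgrad (QJ k).toIdeal) where
  d z := gen (QJ k) m * dq k z
  add a b := by rw [dq_add, mul_add]
  mul a b := by rw [dq_mul]; ring
  mem n a ha := by
    obtain ⟨f, hf, rfl⟩ := mem_qgrad.1 ha
    change Ideal.Quotient.mk _ (X m) * dq k (Ideal.Quotient.mk _ f) ∈ _
    rw [dq_mk, ← map_mul]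
    apply mk_mem_qgrad
    rcases Nat.eq_zero_or_pos n with hn | hn
    · subst hn
      have : f = C (coeff 0 f) := by
        have h := (MvPolynomial.totalDegree_eq_zero_iff_eq_C).1
          (Nat.le_zero.1 hf.totalDegree_le)
        exact h
      rw [this, pderiv_C, mul_zero]
      exact isHomogeneous_zero _ _ _
    · have h1 := (isHomogeneous_X k m).mul (hf.pderiv (i := (0 : Fin 5)))
      rw [show 1 + (n - 1) = n by omega] at h1
      exact h1

lemma locD_smul {A : Type} [CommRing A] (M : Submonoid A) (δ δ' : Der A) (g : A)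
    (h : ∀ a, δ.d a = g * δ'.d a) (z : Localization M) :
    Der.locD δ M z = algebraMap A _ g * Der.locD δ' M z := by
  obtain ⟨a, b, rfl⟩ := IsLocalization.exists_mk'_eq M z
  rw [← Localization.mk_eq_mk', Der.locD_mk, Der.locD_mk, h, h, ← Localization.mk_one_eq_algebraMap,
    Localization.mk_mul, one_mul]
  congr 1
  ring

lemma locD_del (m : Fin 5) (M : Submonoid (QR k)) (z : Localization M) :
    Der.locD (del k m).toDer M z = algebraMap _ _ (gen (QJ k) m) * Der.locD (dqDer k) M z :=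
  locD_smul M _ _ _ (fun _ => rfl) z

/-- The vector field `x_m d/dx_0`. -/
def vf (m : Fin 5) (U : (QX k).Opens) : VectorField (V.str (QJ k)) U where
  D W _ s := projD (𝒜 := qgrad (QJ k).toIdeal) (del k m) W s
  add W _ a b := projD_add (𝒜 := qgrad (QJ k).toIdeal) (del k m) W a b
  leibniz W _ a b := projD_mul (𝒜 := qgrad (QJ k).toIdeal) (del k m) W a b
  const W _ c := by
    apply val_ext
    intro x hx
    have h1 : (pv (𝒜 := qgrad (QJ k).toIdeal) (projD (𝒜 := qgrad (QJ k).toIdeal) (del k m) W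
      (QT.const (V.str (QJ k)) W c)) x hx).val =
      Der.locD (del k m).toDer _ (pv (𝒜 := qgrad (QJ k).toIdeal)
        (QT.const (V.str (QJ k)) W c) x hx).val := (del k m).hl_val _ _
    rw [h1, pv_const, Der.locD_algebraMap]
    have h2 : (del k m).d (Ideal.Quotient.mk (QJ k).toIdeal (C c)) = 0 := by
      change gen (QJ k) m * dq k (Ideal.Quotient.mk _ (C c)) = 0
      rw [dq_mk, pderiv_C, map_zero, mul_zero]
    rw [h2, map_zero]
    exact HomogeneousLocalization.val_zero.symm
  res W W' _ h a := projD_res (𝒜 := qgrad (QJ k).toIdeal) (del k m) h a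

lemma pv_vf (m : Fin 5) (U W : (QX k).Opens) (h : W ≤ U) (s : Reg (QX k) W) (x : QX k)
    (hx : x ∈ W) : (pv (𝒜 := qgrad (QJ k).toIdeal) ((vf k m U).D W h s) x hx).val =
      algebraMap _ _ (gen (QJ k) m) *
        Der.locD (dqDer k) _ (pv (𝒜 := qgrad (QJ k).toIdeal) s x hx).val := by
  rw [← locD_del]
  exact (del k m).hl_val _ _

/-- values on the coordinate functions -/
lemma vf_fr_zero (m c : Fin 5) (hc : c ≠ 0) (U : (QX k).Opens) (h : V.D (QJ k) c ≤ U) :
    (vf k m U).D _ h (fr (QJ k) c 0) = fr (QJ k) c m := by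
  apply val_ext
  intro x hx
  rw [pv_vf, pv_fr, pv_fr, Der.locD_mk, ← Localization.mk_one_eq_algebraMap,
    Localization.mk_mul, Localization.mk_eq_mk_iff, Localization.r_iff_exists]
  refine ⟨1, ?_⟩
  have h1 : (dqDer k).d (gen (QJ k) 0) = 1 := by
    change dq k (Ideal.Quotient.mk _ (X 0)) = 1
    rw [dq_mk, pderiv_X_self, map_one]
  have h2 : (dqDer k).d (gen (QJ k) c) = 0 := by
    change dq k (Ideal.Quotient.mk _ (X c)) = 0
    rw [dq_mk, pderiv_X_of_ne hc, map_zero]
  simp only [h1, h2, OneMemClass.coe_one, one_mul, mul_zero, sub_zero, Submonoid.coe_mul]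
  ring

/-- the vector fields are pairwise proportional -/
lemma vf_prop (m n : Fin 5) (U W : (QX k).Opens) (h : W ≤ U) (s t : Reg (QX k) W) :
    (vf k m U).D W h s * (vf k n U).D W h t = (vf k m U).D W h t * (vf k n U).D W h s := by
  apply val_ext
  intro x hx
  have h1 : ∀ s t : Reg (QX k) W, (pv (𝒜 := qgrad (QJ k).toIdeal)
      ((vf k m U).D W h s * (vf k n U).D W h t) x hx).val =
      (pv (𝒜 := qgrad (QJ k).toIdeal) ((vf k m U).D W h s) x hx).val *
      (pv (𝒜 := qgrad (QJ k).toIdeal) ((vf k n U).D W h t) x hx).val :=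
    fun s t => HomogeneousLocalization.val_mul _ _
  rw [h1, h1, pv_vf, pv_vf, pv_vf, pv_vf]
  ring

/-- relation between different vector fields -/
lemma vf_rel (i j : Fin 5) (U U' W : (QX k).Opens) (hi : W ≤ V.D (QJ k) i) (hU : W ≤ U)
    (hU' : W ≤ U') (s : Reg (QX k) W) :
    (vf k j U).D W hU s = QT.res hi (fr (QJ k) i j) * (vf k i U').D W hU' s := by
  apply val_ext
  intro x hx
  have h1 : (pv (𝒜 := qgrad (QJ k).toIdeal)
      (QT.res hi (fr (QJ k) i j) * (vf k i U').D W hU' s) x hx).val =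
      (pv (𝒜 := qgrad (QJ k).toIdeal) (fr (QJ k) i j) x (hi hx)).val *
      (pv (𝒜 := qgrad (QJ k).toIdeal) ((vf k i U').D W hU' s) x hx).val :=
    HomogeneousLocalization.val_mul _ _
  rw [h1, pv_vf, pv_vf, pv_fr, ← mul_assoc]
  congr 1
  rw [Localization.mk_eq_mk', mul_comm]
  exact (IsLocalization.mk'_spec' (Localization (ProjectiveSpectrum.asHomogeneousIdeal
    (𝒜 := qgrad (QJ k).toIdeal) x).toIdeal.primeCompl) (gen (QJ k) j)
    ⟨gen (QJ k) i, not_mem_of_mem_D (hi hx)⟩).symm

end der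

end

end Pool.Agent.H953R2.QT
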