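import Pool.Agent.H953R2.QT.Smooth

/-! The vector fields `x_m d/dx_0` and the line bundle `O(1)` on the quadric. -/

set_option autoImplicit false

open AlgebraicGeometry CategoryTheory TopologicalSpace Opposite MvPolynomial
open Pool.Agent.Helper198.Sch

namespace Pool.Agent.H953R2.QT

attribute [local instance] MvPolynomial.gradedAlgebra

noncomputable section

section fr

variable {σ R : Type} [CommRing R]

/-- The map from the chart ring to the functions on the open set `x_c ≠ 0`. -/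
def chSec (J : HI σ R) (c : σ) : Ch J c →+* Reg (V J) (V.D J c) :=
  (Proj.awayToSection (qgrad J.toIdeal) (gen J c)).hom

/-- The function `x_a / x_c` on the open set `x_c ≠ 0`. -/
def fr (J : HI σ R) (c a : σ) : Reg (V J) (V.D J c) := chSec J c (frac J c a)

lemma not_mem_of_mem_D {J : HI σ R} {c : σ} {x : V J} (hx : x ∈ V.D J c) :
    gen J c ∈ (ProjectiveSpectrum.asHomogeneousIdeal (𝒜 := qgrad J.toIdeal) x).toIdeal.primeCompl :=
  (V.mem_D_iff J c x).1 hx

lemma pv_fr (J : HI σ R) (c a : σ) (x : V J) (hx : x ∈ V.D J c) :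
    (pv (𝒜 := qgrad J.toIdeal) (fr J c a) x hx).val =
      Localization.mk (gen J a) ⟨gen J c, not_mem_of_mem_D hx⟩ := by
  have h : (pv (𝒜 := qgrad J.toIdeal) (fr J c a) x hx).val =
      Localization.mk (gen J a) ⟨gen J c ^ 1, by
        rw [pow_one]; exact not_mem_of_mem_D hx⟩ := rfl
  rw [h]
  congr 1
  exact Subtype.ext (pow_one _)

/-- equality of sections of the structure sheaf of `V J` -/
lemma val_ext (J : HI σ R) {W : (V J).Opens} (s t : Reg (V J) W)
    (h : ∀ x hx, (pv (𝒜 := qgrad J.toIdeal) s x hx).val = (pv (𝒜 := qgrad J.toIdeal) t x hx).val) :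
    s = t := by
  apply pv_ext (𝒜 := qgrad J.toIdeal)
  intro x hx
  exact HomogeneousLocalization.val_injective _ (h x hx)

lemma fr_self (J : HI σ R) (c : σ) : fr J c c = 1 := by
  unfold fr
  rw [frac_self, map_one]

lemma mk_mul_mk_cancel {A : Type} [CommRing A] {M : Submonoid A} (a : A) (b c : M) :
    Localization.mk (b : A) c * Localization.mk a b = Localization.mk a c := by
  rw [Localization.mk_mul, Localization.mk_eq_mk_iff, Localization.r_iff_exists]
  exact ⟨1, by simp; ring⟩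

lemma res_fr_mul (J : HI σ R) (i j a : σ) (W : (V J).Opens) (hi : W ≤ V.D J i)
    (hj : W ≤ V.D J j) : QT.res hi (fr J i j) * QT.res hj (fr J j a) = QT.res hi (fr J i a) := by
  apply val_ext
  intro x hx
  have h1 := pv_fr J i j x (hi hx)
  have h2 := pv_fr J j a x (hj hx)
  have h3 := pv_fr J i a x (hi hx)
  have h4 : (pv (𝒜 := qgrad J.toIdeal) (QT.res hi (fr J i j) * QT.res hj (fr J j a)) x hx).val =
    (pv (𝒜 := qgrad J.toIdeal) (fr J i j) x (hi hx)).val *
      (pv (𝒜 := qgrad J.toIdeal) (fr J j a) x (hj hx)).val :=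
    HomogeneousLocalization.val_mul _ _
  have h5 : (pv (𝒜 := qgrad J.toIdeal) (QT.res hi (fr J i a)) x hx).val =
    (pv (𝒜 := qgrad J.toIdeal) (fr J i a) x (hi hx)).val := rfl
  rw [h4, h5, h1, h2, h3]
  exact mk_mul_mk_cancel _ ⟨gen J j, not_mem_of_mem_D (hj hx)⟩ _

lemma mem_basicOpen_iff {A τ : Type} [CommRing A] [SetLike τ A] [AddSubgroupClass τ A]
    {𝒜 : ℕ → τ} [GradedRing 𝒜] {W : (Proj 𝒜).Opens} (s : Reg (Proj 𝒜) W) (x : Proj 𝒜)
    (hx : x ∈ W) : x ∈ (Proj 𝒜).basicOpen s ↔ IsUnit (pv s x hx) := by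
  rw [Scheme.mem_basicOpen _ _ _ hx]
  have h := Proj.stalkIso'_germ 𝒜 W x hx s
  have h2 : pv s x hx = Proj.stalkIso' 𝒜 x ((Proj 𝒜).presheaf.germ W x hx s) := h.symm
  rw [h2]
  exact (MulEquiv.isUnit_map (Proj.stalkIso' 𝒜 x)).symm

lemma basicOpen_fr (J : HI σ R) (c a : σ) :
    (V J).basicOpen (fr J c a) = V.D J c ⊓ V.D J a := by
  ext x
  constructor
  · intro h
    have hx : x ∈ V.D J c := (V J).basicOpen_le _ h
    refine ⟨hx, ?_⟩
    have h1 := (mem_basicOpen_iff (𝒜 := qgrad J.toIdeal) (fr J c a) x hx).1 h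
    rw [← HomogeneousLocalization.isUnit_iff_isUnit_val, pv_fr, Localization.mk_eq_mk',
      IsLocalization.AtPrime.isUnit_mk'_iff] at h1
    exact (V.mem_D_iff J a x).2 h1
  · rintro ⟨hx, ha⟩
    refine (mem_basicOpen_iff (𝒜 := qgrad J.toIdeal) (fr J c a) x hx).2 ?_
    rw [← HomogeneousLocalization.isUnit_iff_isUnit_val, pv_fr, Localization.mk_eq_mk',
      IsLocalization.AtPrime.isUnit_mk'_iff]
    exact (V.mem_D_iff J a x).1 ha

end fr

end

end Pool.Agent.H953R2.QT
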