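import Mathlib

/-! Extension of a derivation to localizations and to homogeneous localizations. -/

set_option autoImplicit false

namespace Pool.Agent.H953R2.QT

noncomputable section

section loc

variable {A : Type} [CommRing A]

/-- an additive derivation of a ring -/
structure Der (A : Type) [CommRing A] where
  d : A → A
  add : ∀ a b, d (a + b) = d a + d b
  mul : ∀ a b, d (a * b) = a * d b + b * d a

namespace Der

variable (δ : Der A)

lemma zero : δ.d 0 = 0 := by
  have h := δ.add 0 0
  rw [add_zero] at h
  exact left_eq_add.mp h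

lemma one : δ.d 1 = 0 := by
  have h := δ.mul 1 1
  rw [mul_one, one_mul] at h
  exact left_eq_add.mp h

lemma neg (a : A) : δ.d (-a) = -δ.d a := by
  have h := δ.add a (-a)
  rw [add_neg_cancel, δ.zero] at h
  exact (neg_eq_of_add_eq_zero_right h.symm).symm

lemma sub (a b : A) : δ.d (a - b) = δ.d a - δ.d b := by
  rw [sub_eq_add_neg, δ.add, δ.neg, ← sub_eq_add_neg]

variable (M : Submonoid A)

/-- the ring map to the square zero extension -/
def tsz : A →+* TrivSqZeroExt (Localization M) (Localization M) where
  toFun a := (algebraMap A (Localization M) a, algebraMap A (Localization M) (δ.d a))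
  map_one' := by
    rw [δ.one, map_zero, map_one]
    rfl
  map_zero' := by
    rw [δ.zero, map_zero]
    rfl
  map_add' a b := by
    rw [δ.add, map_add, map_add]
    rfl
  map_mul' a b := by
    rw [δ.mul, map_add, map_mul, map_mul, map_mul]
    refine TrivSqZeroExt.ext ?_ ?_
    · rfl
    · change _ = algebraMap A (Localization M) a • algebraMap A (Localization M) (δ.d b) +
        MulOpposite.op (algebraMap A (Localization M) b) • algebraMap A (Localization M) (δ.d a)
      rw [smul_eq_mul, op_smul_eq_smul, smul_eq_mul]
      rfl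

lemma fst_tsz (a : A) : TrivSqZeroExt.fst (tsz δ M a) = algebraMap A (Localization M) a := rfl

lemma snd_tsz (a : A) : TrivSqZeroExt.snd (tsz δ M a) = algebraMap A (Localization M) (δ.d a) := rfl

lemma tsz_unit (m : M) : IsUnit (tsz δ M m) := by
  rw [TrivSqZeroExt.isUnit_iff_isUnit_fst, fst_tsz]
  exact IsLocalization.map_units _ m

/-- the extension to the localization -/
def hom : Localization M →+* TrivSqZeroExt (Localization M) (Localization M) :=
  IsLocalization.lift (M := M) (tsz_unit δ M)

lemma hom_algebraMap (a : A) : hom δ M (algebraMap A (Localization M) a) = tsz δ M a :=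
  IsLocalization.lift_eq _ _

/-- first component as a ring map -/
def fstR (S : Type) [CommRing S] : TrivSqZeroExt S S →+* S where
  toFun := TrivSqZeroExt.fst
  map_one' := rfl
  map_zero' := rfl
  map_add' _ _ := rfl
  map_mul' _ _ := rfl

lemma fst_hom (z : Localization M) : TrivSqZeroExt.fst (hom δ M z) = z := by
  have h : ((fstR (Localization M)).comp (hom δ M)) = RingHom.id _ := by
    apply IsLocalization.ringHom_ext M
    ext a
    rw [RingHom.comp_apply, RingHom.comp_apply, hom_algebraMap]
    rfl
  exact congrArg (fun f => f z) h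

/-- the extended derivation -/
def locD (z : Localization M) : Localization M := TrivSqZeroExt.snd (hom δ M z)

lemma locD_add (x y : Localization M) : locD δ M (x + y) = locD δ M x + locD δ M y := by
  unfold locD
  rw [map_add, TrivSqZeroExt.snd_add]

lemma locD_mul (x y : Localization M) : locD δ M (x * y) = x * locD δ M y + y * locD δ M x := by
  unfold locD
  rw [map_mul, TrivSqZeroExt.snd_mul, fst_hom, fst_hom, smul_eq_mul, op_smul_eq_smul, smul_eq_mul]

lemma locD_algebraMap (a : A) : locD δ M (algebraMap A (Localization M) a) =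
    algebraMap A (Localization M) (δ.d a) := by
  unfold locD
  rw [hom_algebraMap, snd_tsz]

lemma locD_mk (a : A) (b : M) : locD δ M (Localization.mk a b) =
    Localization.mk (δ.d a * b - a * δ.d b) (b * b) := by
  have hb : IsUnit (algebraMap A (Localization M) b) := IsLocalization.map_units _ b
  have h1 : Localization.mk a b * algebraMap A (Localization M) b = algebraMap A _ a := by
    rw [Localization.mk_eq_mk', IsLocalization.mk'_spec]
  have h2 := congrArg (locD δ M) h1
  rw [locD_mul, locD_algebraMap, locD_algebraMap] at h2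
  apply (hb.mul hb).mul_right_cancel
  have h3 : Localization.mk (δ.d a * b - a * δ.d b) (b * b) *
      (algebraMap A (Localization M) b * algebraMap A (Localization M) b) =
      algebraMap A (Localization M) (δ.d a * b - a * δ.d b) := by
    rw [← map_mul, Localization.mk_eq_mk']
    exact IsLocalization.mk'_spec (Localization M) _ (b * b)
  rw [h3, map_sub, map_mul, map_mul, ← h2]
  rw [← h1]
  ring

end Der

end loc

section graded

variable {A σ : Type} [CommRing A] [SetLike σ A] [AddSubgroupClass σ A]
variable (𝒜 : ℕ → σ) [GradedRing 𝒜]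

/-- a derivation preserving the degree -/
structure GDer extends Der A where
  mem : ∀ (n : ℕ) (a : A), a ∈ 𝒜 n → toDer.d a ∈ 𝒜 n

variable {𝒜}

open HomogeneousLocalization

/-- action on a fraction -/
def GDer.frac (δ : GDer 𝒜) (M : Submonoid A) (c : NumDenSameDeg 𝒜 M) : NumDenSameDeg 𝒜 M where
  deg := c.deg + c.deg
  num := ⟨δ.d c.num * c.den - c.num * δ.d c.den,
    sub_mem (SetLike.mul_mem_graded (δ.mem _ _ c.num.2) c.den.2)
      (SetLike.mul_mem_graded c.num.2 (δ.mem _ _ c.den.2))⟩
  den := ⟨c.den * c.den, SetLike.mul_mem_graded c.den.2 c.den.2⟩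
  den_mem := M.mul_mem c.den_mem c.den_mem

lemma GDer.frac_embedding (δ : GDer 𝒜) (M : Submonoid A) (c : NumDenSameDeg 𝒜 M) :
    (δ.frac M c).embedding = Der.locD δ.toDer M c.embedding := by
  unfold NumDenSameDeg.embedding
  rw [Der.locD_mk]
  rfl

/-- action on the homogeneous localization -/
def GDer.hl (δ : GDer 𝒜) (M : Submonoid A) (z : HomogeneousLocalization 𝒜 M) :
    HomogeneousLocalization 𝒜 M :=
  Quotient.map' (δ.frac M) (fun c c' (h : c.embedding = c'.embedding) => by
    change (δ.frac M c).embedding = (δ.frac M c').embedding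
    rw [δ.frac_embedding, δ.frac_embedding, h]) z

lemma GDer.hl_mk (δ : GDer 𝒜) (M : Submonoid A) (c : NumDenSameDeg 𝒜 M) :
    δ.hl M (.mk c) = .mk (δ.frac M c) := rfl

lemma GDer.hl_val (δ : GDer 𝒜) (M : Submonoid A) (z : HomogeneousLocalization 𝒜 M) :
    (δ.hl M z).val = Der.locD δ.toDer M z.val := by
  obtain ⟨c, rfl⟩ := HomogeneousLocalization.mk_surjective z
  rw [GDer.hl_mk]
  exact δ.frac_embedding M c

lemma GDer.hl_add (δ : GDer 𝒜) (M : Submonoid A) (x y : HomogeneousLocalization 𝒜 M) :
    δ.hl M (x + y) = δ.hl M x + δ.hl M y := by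
  apply HomogeneousLocalization.val_injective
  rw [hl_val, val_add, val_add, Der.locD_add, hl_val, hl_val]

lemma GDer.hl_mul (δ : GDer 𝒜) (M : Submonoid A) (x y : HomogeneousLocalization 𝒜 M) :
    δ.hl M (x * y) = x * δ.hl M y + y * δ.hl M x := by
  apply HomogeneousLocalization.val_injective
  rw [hl_val, val_mul, val_add, Der.locD_mul, val_mul, val_mul, hl_val, hl_val]

end graded

end

end Pool.Agent.H953R2.QT
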