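import Pool.Agent.H953R2.QT.PField
import Pool.Agent.H953R2.QT.Bundle

/-! The quadric in characteristic two is not isomorphic to projective space. -/

set_option autoImplicit false

open AlgebraicGeometry CategoryTheory TopologicalSpace Opposite MvPolynomial
open Pool.Agent.Helper198.Sch

namespace Pool.Agent.H953R2.QT

attribute [local instance] MvPolynomial.gradedAlgebra

noncomputable section

variable (k : Type) [Field k]

/-- the coordinates `x_a / x_1` are linearly independent -/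
lemma lin_indep (c : Fin 5 → k)
    (h : ∑ m, QT.const (V.str (QJ k)) (V.D (QJ k) 1) (c m) * fr (QJ k) 1 m = 0) : c = 0 := by
  have h1 : chSec (QJ k) 1 (∑ m, algebraMap k (Ch (QJ k) 1) (c m) * frac (QJ k) 1 m) = 0 := by
    rw [map_sum]
    refine Eq.trans (Finset.sum_congr rfl fun m _ => ?_) h
    rw [map_mul, const_D]
    rfl
  rw [← map_zero (chSec (QJ k) 1)] at h1
  have h2 := (chSec_bij (QJ k) 1).1 h1
  have h3 := congrArg (chTo k 0) h2
  have h4 : ∀ s, chTo k 0 (frac (QJ k) 1 s) = uu 0 (X 0) (X 1) (X 2) s := chTo_frac k 0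
  have h5 : ∀ r, chTo k 0 (algebraMap k (Ch (QJ k) 1) r) = C r := fun r =>
    (chTo k 0).commutes r
  have h3' : ∑ m, C (c m) * uu 0 (X 0) (X 1) (X 2) m = (0 : MvPolynomial (Fin 3) k) := by
    have h6 : chTo k 0 (∑ m, algebraMap k (Ch (QJ k) 1) (c m) * frac (QJ k) 1 m) =
        ∑ m, C (c m) * uu 0 (X 0) (X 1) (X 2) m := by
      refine (map_sum (chTo k 0) _ _).trans ?_
      refine Finset.sum_congr rfl fun m _ => ?_
      refine (map_mul (chTo k 0) _ _).trans ?_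
      rw [h4, h5]
    rw [← h6]
    exact h3.trans (map_zero _)
  rw [Fin.sum_univ_five] at h3'
  have u0 : uu 0 (X 0) (X 1) (X 2) 0 = (X 0 : MvPolynomial (Fin 3) k) := uu_0 0 _ _ _
  have u1 : uu 0 (X 0) (X 1) (X 2) 1 = (1 : MvPolynomial (Fin 3) k) := uu_c 0 _ _ _
  have u2 : uu 0 (X 0) (X 1) (X 2) 2 = (-(X 0 ^ 2 + X 1 * X 2) : MvPolynomial (Fin 3) k) :=
    uu_c' 0 _ _ _
  have u3 : uu 0 (X 0) (X 1) (X 2) 3 = (X 1 : MvPolynomial (Fin 3) k) := uu_a 0 _ _ _
  have u4 : uu 0 (X 0) (X 1) (X 2) 4 = (X 2 : MvPolynomial (Fin 3) k) := uu_b 0 _ _ _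
  rw [u0, u1, u2, u3, u4] at h3'
  have E : ∀ v : Fin 3 → k, c 0 * v 0 + c 1 + c 2 * (-(v 0 ^ 2 + v 1 * v 2)) + c 3 * v 1 +
      c 4 * v 2 = 0 := by
    intro v
    have := congrArg (eval v) h3'
    simpa using this
  have e1 := E ![0, 0, 0]
  have e2 := E ![0, 1, 0]
  have e3 := E ![0, 0, 1]
  have e4 := E ![0, 1, 1]
  have e5 := E ![1, 0, 0]
  simp at e1 e2 e3 e4 e5
  have f1 : c 1 = 0 := e1
  have f3 : c 3 = 0 := by linear_combination e2 - e1
  have f4 : c 4 = 0 := by linear_combination e3 - e1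
  have f2 : c 2 = 0 := by linear_combination -e4 + f1 + f3 + f4
  have f0 : c 0 = 0 := by linear_combination e5 - f1 + f2
  funext i
  fin_cases i
  · exact f0
  · exact f1
  · exact f2
  · exact f3
  · exact f4

/-- projective 3-space as `V ⊥` -/
def pIso3 : PX k ≅ PSpace 3 k := projIso (Fin (3 + 1)) k

lemma pIso3_str : (pIso3 k).hom ≫ PSpace.str 3 k = V.str (BJ (Fin 4) k) := projIso_hom_str 3 k

theorem not_iso [CharP k 2] :
    ¬ ∃ e : QX k ≅ PSpace 3 k, e.hom ≫ PSpace.str 3 k = V.str (QJ k) := by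
  rintro ⟨e, he⟩
  have hQ := integral_QX k
  let w : QX k ≅ PX k := e ≪≫ (pIso3 k).symm
  have hw : w.hom ≫ V.str (BJ (Fin 4) k) = V.str (QJ k) := by
    rw [← pIso3_str k]
    change (e.hom ≫ (pIso3 k).inv) ≫ _ ≫ _ = _
    rw [Category.assoc, Iso.inv_hom_id_assoc, he]
  have hP : IsIntegral (PX k) := by
    have : Nonempty (PX k) := ⟨w.hom (V.chart (QJ k) (lab 0).c ⟨⊥, Ideal.isPrime_bot⟩)⟩
    exact isIntegral_of_isOpenImmersion w.inv
  let E : Fin 5 → VectorField (V.str (BJ (Fin 4) k)) ⊤ := fun m => transp w hw (vf k m ⊤)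
  obtain ⟨c, hc, hs⟩ := dependent k E (by
    intro m n s t
    apply (pb_bij w _).1
    rw [map_mul, map_mul, pb_transp, pb_transp, pb_transp, pb_transp]
    exact vf_prop k m n _ _ _ _ _)
  -- a common open set
  let O : (PX k).Opens := w.inv ⁻¹ᵁ (V.D (QJ k) 1)
  have hO : (O : Set (PX k)).Nonempty := by
    obtain ⟨x, hx⟩ := nonempty_D k 0
    refine ⟨w.hom x, ?_⟩
    change w.inv (w.hom x) ∈ V.D (QJ k) 1
    rw [← Scheme.Hom.comp_apply, Iso.hom_inv_id]
    exact hx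
  obtain ⟨x, hx0, hxO⟩ := inf_nonempty (D_P_nonempty k 0) hO
  have haff : IsAffineOpen (V.D (BJ (Fin 4) k) 0) :=
    Proj.isAffineOpen_basicOpen (qgrad (BJ (Fin 4) k).toIdeal) (gen (BJ (Fin 4) k) 0)
      (gen_mem (BJ (Fin 4) k) 0) one_pos
  obtain ⟨W, hxW, hWO, hW⟩ := vf_local (comb c E) haff hs O x hx0 hxO
  have hle : w.hom ⁻¹ᵁ W ≤ V.D (QJ k) 1 := by
    intro y hy
    have h1 := hWO hy
    change w.inv (w.hom y) ∈ V.D (QJ k) 1 at h1
    rw [← Scheme.Hom.comp_apply, Iso.hom_inv_id] at h1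
    exact h1
  have hne : ((w.hom ⁻¹ᵁ W : (QX k).Opens) : Set (QX k)).Nonempty := by
    refine ⟨w.inv x, ?_⟩
    change w.hom (w.inv x) ∈ W
    rw [← Scheme.Hom.comp_apply, Iso.inv_hom_id]
    exact hxW
  obtain ⟨s, hs'⟩ := (pb_bij w W).2 (QT.res hle (fr (QJ k) 1 0))
  have h2 := pb_comb_transp w hw c (fun m => vf k m ⊤) W s
  have h3 := hW s
  have h4 : (comb c (fun m => vf k m ⊤)).D (w.hom ⁻¹ᵁ W) le_top
      (QT.res hle (fr (QJ k) 1 0)) = 0 := by
    rw [← hs', ← h2]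
    exact (congrArg (pb w.hom W) h3).trans (map_zero _)
  rw [← (comb c (fun m => vf k m ⊤)).res (V.D (QJ k) 1) _ le_top hle] at h4
  have h5 := res_injective hle hne (h4.trans (map_zero _).symm)
  apply hc
  apply lin_indep k c
  refine Eq.trans (Finset.sum_congr rfl fun m _ => ?_) h5
  rw [vf_fr_zero k m 1 one_ne_zero]

end

end Pool.Agent.H953R2.QT
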