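import Pool.Agent.H953R2.QT.Defs
import Pool.Agent.Helper198.SchP

/-! Projective space as `V ⊥`. -/

set_option autoImplicit false

open AlgebraicGeometry CategoryTheory TopologicalSpace Opposite MvPolynomial
open Pool.Agent.Helper198.Sch

namespace Pool.Agent.H953R2.QT

attribute [local instance] MvPolynomial.gradedAlgebra

noncomputable section

variable (σ R : Type) [CommRing R]

/-- the zero ideal -/
abbrev BJ : HI σ R := ⊥

/-- the inverse of the quotient map by zero -/
def unq : qgrad (BJ σ R).toIdeal →+*ᵍ homogeneousSubmodule σ R where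
  toRingHom := Ideal.Quotient.lift (BJ σ R).toIdeal (RingHom.id _) (fun a ha => by
    have : a ∈ (⊥ : Ideal (MvPolynomial σ R)) := ha
    exact (Ideal.mem_bot).1 this)
  map_mem := by
    intro i x hx
    obtain ⟨f, hf, rfl⟩ := mem_qgrad.1 hx
    exact hf

lemma unq_mk (f : MvPolynomial σ R) : unq σ R (Ideal.Quotient.mk (BJ σ R).toIdeal f) = f := rfl

lemma unq_irr : HomogeneousIdeal.irrelevant (homogeneousSubmodule σ R) ≤
    HomogeneousIdeal.map (unq σ R) (HomogeneousIdeal.irrelevant (qgrad (BJ σ R).toIdeal)) := by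
  have h : (HomogeneousIdeal.irrelevant (homogeneousSubmodule σ R)).toIdeal ≤
    (HomogeneousIdeal.map (unq σ R)
      (HomogeneousIdeal.irrelevant (qgrad (BJ σ R).toIdeal))).toIdeal := by
    rw [HomogeneousIdeal.toIdeal_irrelevant_le]
    intro i hi f hf
    have h1 : f = unq σ R (Ideal.Quotient.mk (BJ σ R).toIdeal f) := (unq_mk σ R f).symm
    rw [h1]
    refine Ideal.mem_map_of_mem _ ?_
    exact HomogeneousIdeal.mem_irrelevant_of_mem _ hi (mk_mem_qgrad hf)
  exact h

lemma comp1 : (unq σ R).comp (renMap (BJ σ R) (Equiv.refl σ)) =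
    .id (homogeneousSubmodule σ R) := by
  refine DFunLike.ext _ _ fun f => ?_
  change (unq σ R) (Ideal.Quotient.mk (BJ σ R).toIdeal (rename (Equiv.refl σ) f)) = f
  rw [unq_mk]
  simp

lemma comp2 : (renMap (BJ σ R) (Equiv.refl σ)).comp (unq σ R) =
    .id (qgrad (BJ σ R).toIdeal) := by
  ext x
  obtain ⟨f, rfl⟩ := Ideal.Quotient.mk_surjective x
  change renMap (BJ σ R) (Equiv.refl σ) (unq σ R (Ideal.Quotient.mk (BJ σ R).toIdeal f)) = _
  rw [unq_mk]
  change Ideal.Quotient.mk (BJ σ R).toIdeal (rename (Equiv.refl σ) f) = _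
  simp

/-- projective space is `V ⊥` -/
def projIso : V (BJ σ R) ≅ Proj (homogeneousSubmodule σ R) where
  hom := emb (BJ σ R) (Equiv.refl σ)
  inv := Proj.map (unq σ R) (unq_irr σ R)
  hom_inv_id := by
    refine (Proj.map_comp (unq σ R) (renMap (BJ σ R) (Equiv.refl σ)) (unq_irr σ R)
      (renMap_irr _ _)).symm.trans ?_
    have h : ∀ (f : qgrad (BJ σ R).toIdeal →+*ᵍ qgrad (BJ σ R).toIdeal) (h1 : _),
      f = .id (qgrad (BJ σ R).toIdeal) → Proj.map f h1 = 𝟙 _ := by
      rintro f h1 rfl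
      exact Proj.map_id
    exact h _ _ (comp2 σ R)
  inv_hom_id := by
    refine (Proj.map_comp (renMap (BJ σ R) (Equiv.refl σ)) (unq σ R) (renMap_irr _ _)
      (unq_irr σ R)).symm.trans ?_
    have h : ∀ (f : homogeneousSubmodule σ R →+*ᵍ homogeneousSubmodule σ R) (h1 : _),
      f = .id (homogeneousSubmodule σ R) → Proj.map f h1 = 𝟙 _ := by
      rintro f h1 rfl
      exact Proj.map_id
    exact h _ _ (comp1 σ R)

lemma projIso_hom_str (n : ℕ) (k : Type) [Field k] :
    (projIso (Fin (n + 1)) k).hom ≫ PSpace.str n k = V.str (BJ (Fin (n + 1)) k) :=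
  emb_str (BJ (Fin (n + 1)) k) (Equiv.refl (Fin (n + 1)))

end

end Pool.Agent.H953R2.QT
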