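import Pool.Agent.H953R2.QT.VFGen
import Pool.Agent.H953R2.QT.Alg
import Pool.Agent.H953R2.QT.PIso

/-! Vector fields on projective 3-space. -/

set_option autoImplicit false

open AlgebraicGeometry CategoryTheory TopologicalSpace Opposite MvPolynomial
open Pool.Agent.Helper198.Sch

namespace Pool.Agent.H953R2.QT

attribute [local instance] MvPolynomial.gradedAlgebra

noncomputable section

section gen

variable {σ k : Type} [Field k]

lemma chSec_bij (J : HI σ k) (c : σ) : Function.Bijective (chSec J c) := by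
  have h : IsIso (Proj.awayToSection (qgrad J.toIdeal) (gen J c)) := by
    have h1 : Proj.awayToSection (qgrad J.toIdeal) (gen J c) =
      (Proj.basicOpenIsoAway (qgrad J.toIdeal) (gen J c) (gen_mem J c) one_pos).hom := rfl
    rw [h1]
    infer_instance
  exact ConcreteCategory.bijective_of_isIso (Proj.awayToSection (qgrad J.toIdeal) (gen J c))

/-- evaluation of polynomials in the functions `x_a / x_c` -/
def ev (J : HI σ k) (c : σ) : MvPolynomial σ k →+* Reg (V J) (V.D J c) :=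
  (chSec J c).comp (aeval (frac J c) : MvPolynomial σ k →ₐ[k] Ch J c).toRingHom

lemma ev_X (J : HI σ k) (c a : σ) : ev J c (X a) = fr J c a := by
  change chSec J c (aeval (frac J c) (X a)) = _
  rw [aeval_X]
  rfl

lemma ev_C (J : HI σ k) (c : σ) (r : k) : ev J c (C r) = QT.const (V.str J) (V.D J c) r := by
  change chSec J c (aeval (frac J c) (C r)) = _
  rw [const_D, ← algebraMap_eq, AlgHom.commutes]

lemma exists_hom (J : HI σ k) (c : σ) (x : Ch J c) :
    ∃ (n : ℕ) (f : MvPolynomial σ k), f.IsHomogeneous n ∧ aeval (frac J c) f = x := by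
  obtain ⟨n, y, hy, rfl⟩ := HomogeneousLocalization.Away.mk_surjective (qgrad J.toIdeal)
    (gen_mem J c) x
  obtain ⟨f, hf, rfl⟩ := mem_qgrad.1 hy
  have hf' : f.IsHomogeneous n := by simpa using hf
  refine ⟨n, f, hf', ?_⟩
  apply chVal_injective
  have hu : IsUnit (algebraMap (MvPolynomial σ k ⧸ J.toIdeal) (Localization.Away (gen J c))
    (gen J c) ^ n) := (IsLocalization.Away.algebraMap_isUnit _).pow n
  apply hu.mul_left_cancel
  rw [chVal_aeval J c hf']
  have h : chVal J c (HomogeneousLocalization.Away.mk (qgrad J.toIdeal) (gen_mem J c) n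
      (Ideal.Quotient.mk J.toIdeal f) hy) =
    Localization.mk (Ideal.Quotient.mk J.toIdeal f)
      (⟨gen J c ^ n, ⟨n, rfl⟩⟩ : Submonoid.powers (gen J c)) := by
    rfl
  rw [h, ← map_pow, ← Localization.mk_one_eq_algebraMap, ← Localization.mk_one_eq_algebraMap,
    Localization.mk_mul, Localization.mk_eq_mk_iff, Localization.r_iff_exists]
  exact ⟨1, by simp⟩

lemma ev_surj (J : HI σ k) (c : σ) (s : Reg (V J) (V.D J c)) :
    ∃ (n : ℕ) (f : MvPolynomial σ k), f.IsHomogeneous n ∧ ev J c f = s := by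
  obtain ⟨x, rfl⟩ := (chSec_bij J c).2 s
  obtain ⟨n, f, hf, rfl⟩ := exists_hom J c x
  exact ⟨n, f, hf, rfl⟩

/-- homogeneity: change of chart -/
lemma res_ev (J : HI σ k) (i j : σ) (W : (V J).Opens) (hi : W ≤ V.D J i) (hj : W ≤ V.D J j)
    {n : ℕ} {f : MvPolynomial σ k} (hf : f.IsHomogeneous n) :
    QT.res hi (ev J i f) = QT.res hi (fr J i j) ^ n * QT.res hj (ev J j f) := by
  let _ : Algebra k (Reg (V J) W) := (QT.const (V.str J) W).toAlgebra
  have key : ∀ (c : σ) (hc : W ≤ V.D J c), (QT.res hc).comp (ev J c) =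
      (aeval (fun a => QT.res hc (fr J c a)) : MvPolynomial σ k →ₐ[k] Reg (V J) W).toRingHom := by
    intro c hc
    apply MvPolynomial.ringHom_ext
    · intro r
      change QT.res hc (ev J c (C r)) = aeval (fun a => QT.res hc (fr J c a)) (C r)
      rw [ev_C, res_const, aeval_C]
      rfl
    · intro a
      change QT.res hc (ev J c (X a)) = aeval (fun a => QT.res hc (fr J c a)) (X a)
      rw [ev_X, aeval_X]
  have h1 : QT.res hi (ev J i f) = aeval (fun a => QT.res hi (fr J i a)) f :=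
    congrArg (fun g : MvPolynomial σ k →+* Reg (V J) W => g f) (key i hi)
  have h2 : QT.res hj (ev J j f) = aeval (fun a => QT.res hj (fr J j a)) f :=
    congrArg (fun g : MvPolynomial σ k →+* Reg (V J) W => g f) (key j hj)
  rw [h1, h2, ← aeval_scale hf]
  congr 1
  congr 1
  funext a
  exact (res_fr_mul J i j a W hi hj).symm

/-- nonemptiness of a chart -/
lemma D_nonempty (J : HI σ k) (c : σ) {E : Type} [CommRing E] [Nontrivial E] [Algebra k E]
    (u : σ → E) (hc : u c = 1) (hu : ∀ f ∈ J.toIdeal, aeval u f = 0) :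
    (V.D J c : Set (V J)).Nonempty := by
  have hn : Nontrivial (Ch J c) := (chLift J c u hc hu).toRingHom.domain_nontrivial
  obtain ⟨x⟩ := (inferInstance : Nonempty (PrimeSpectrum (Ch J c)))
  refine ⟨V.chart J c x, ?_⟩
  exact (V.mem_range_chart J c _).1 ⟨x, rfl⟩

/-- a derivation is determined by its values on the coordinates -/
lemma vf_ev_zero (J : HI σ k) (c : σ) (E : VectorField (V.str J) ⊤)
    (h : ∀ a, E.D (V.D J c) le_top (fr J c a) = 0) (s : Reg (V J) (V.D J c)) :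
    E.D (V.D J c) le_top s = 0 := by
  obtain ⟨n, f, -, rfl⟩ := ev_surj J c s
  induction f using MvPolynomial.induction_on with
  | C r => rw [ev_C, E.const]
  | add f g hf hg => rw [map_add, E.add, hf, hg, add_zero]
  | mul_X f a hf => rw [map_mul, E.leibniz, hf, ev_X, h, mul_zero, mul_zero, add_zero]

end gen

section P3

variable (k : Type) [Field k]

/-- projective 3-space -/
abbrev PX : Scheme.{0} := V (BJ (Fin 4) k)

lemma aeval_YY (f : MvPolynomial (Fin 4) k) (hf : f ∈ (BJ (Fin 4) k).toIdeal) {E : Type}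
    [CommRing E] [Algebra k E] (u : Fin 4 → E) : aeval u f = 0 := by
  have : f ∈ (⊥ : Ideal (MvPolynomial (Fin 4) k)) := hf
  rw [(Ideal.mem_bot).1 this, map_zero]

/-- coordinates on the chart `x_0 = 1` -/
def toP : Ch (BJ (Fin 4) k) 0 →ₐ[k] MvPolynomial (Fin 3) k :=
  chLift (BJ (Fin 4) k) 0 YY rfl (fun f hf => aeval_YY k f hf YY)

/-- functions on the chart `x_0 = 1` -/
def ev0 : MvPolynomial (Fin 3) k →+* Reg (PX k) (V.D (BJ (Fin 4) k) 0) :=
  (chSec (BJ (Fin 4) k) 0).comp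
    (aeval (fun i : Fin 3 => frac (BJ (Fin 4) k) 0 i.succ) :
      MvPolynomial (Fin 3) k →ₐ[k] Ch (BJ (Fin 4) k) 0).toRingHom

lemma ev0_inj : Function.Injective (ev0 k) := by
  intro f g hfg
  have h1 := (chSec_bij (BJ (Fin 4) k) 0).1 hfg
  have h2 := congrArg (toP k) h1
  have h3 : ∀ f : MvPolynomial (Fin 3) k, toP k ((aeval (fun i : Fin 3 =>
      frac (BJ (Fin 4) k) 0 i.succ) : MvPolynomial (Fin 3) k →ₐ[k] Ch (BJ (Fin 4) k) 0) f) = f := by
    intro f
    rw [← AlgHom.comp_apply, comp_aeval]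
    have h4 : (fun i : Fin 3 => toP k (frac (BJ (Fin 4) k) 0 i.succ)) = X := by
      funext i
      unfold toP
      rw [chLift_frac]
      fin_cases i <;> rfl
    rw [h4, aeval_X_left, AlgHom.id_apply]
  exact (h3 f).symm.trans (h2.trans (h3 g))

lemma ev0_YY (a : Fin 4) : ev0 k (YY a) = fr (BJ (Fin 4) k) 0 a := by
  change chSec (BJ (Fin 4) k) 0 (aeval _ (YY a)) = chSec (BJ (Fin 4) k) 0 _
  congr 1
  fin_cases a
  · change aeval _ (1 : MvPolynomial (Fin 3) k) = frac (BJ (Fin 4) k) 0 0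
    rw [map_one, frac_self]
  · change aeval _ (X 0 : MvPolynomial (Fin 3) k) = frac (BJ (Fin 4) k) 0 1
    rw [aeval_X]; rfl
  · change aeval _ (X 1 : MvPolynomial (Fin 3) k) = frac (BJ (Fin 4) k) 0 2
    rw [aeval_X]; rfl
  · change aeval _ (X 2 : MvPolynomial (Fin 3) k) = frac (BJ (Fin 4) k) 0 3
    rw [aeval_X]; rfl

lemma ev0_deh (f : MvPolynomial (Fin 4) k) : ev0 k (aeval YY f) = ev (BJ (Fin 4) k) 0 f := by
  have h : (ev0 k).comp (aeval YY : MvPolynomial (Fin 4) k →ₐ[k] _).toRingHom =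
      ev (BJ (Fin 4) k) 0 := by
    apply MvPolynomial.ringHom_ext
    · intro r
      change ev0 k (aeval YY (C r)) = chSec (BJ (Fin 4) k) 0 (aeval (frac (BJ (Fin 4) k) 0) (C r))
      rw [aeval_C, aeval_C, algebraMap_eq]
      change chSec (BJ (Fin 4) k) 0 (aeval _ (C r)) = _
      rw [aeval_C]
    · intro a
      change ev0 k (aeval YY (X a)) = _
      rw [aeval_X, ev0_YY, ev_X]
  exact congrArg (fun g : MvPolynomial (Fin 4) k →+* _ => g f) h

lemma ev0_surj (s : Reg (PX k) (V.D (BJ (Fin 4) k) 0)) : ∃ f, ev0 k f = s := by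
  obtain ⟨n, f, -, rfl⟩ := ev_surj (BJ (Fin 4) k) 0 s
  exact ⟨aeval YY f, ev0_deh k f⟩

lemma totalDegree_YY (a : Fin 4) : (YY a : MvPolynomial (Fin 3) k).totalDegree ≤ 1 := by
  fin_cases a
  · change (1 : MvPolynomial (Fin 3) k).totalDegree ≤ 1
    simp
  · change (X 0 : MvPolynomial (Fin 3) k).totalDegree ≤ 1
    simp
  · change (X 1 : MvPolynomial (Fin 3) k).totalDegree ≤ 1
    simp
  · change (X 2 : MvPolynomial (Fin 3) k).totalDegree ≤ 1
    simp

lemma totalDegree_deh {n : ℕ} {f : MvPolynomial (Fin 4) k} (hf : f.IsHomogeneous n) :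
    (aeval YY f : MvPolynomial (Fin 3) k).totalDegree ≤ n := by
  rw [f.as_sum, map_sum]
  apply (totalDegree_finsetSum _ _).trans
  apply Finset.sup_le
  intro d hd
  rw [aeval_monomial]
  have h1 : d.degree = n := hf.degree_eq_sum_deg_support hd ▸ rfl
  refine (totalDegree_mul _ _).trans ?_
  have h2 : (algebraMap k (MvPolynomial (Fin 3) k) (coeff d f)).totalDegree = 0 := by
    rw [algebraMap_eq, totalDegree_C]
  rw [h2, zero_add]
  refine (totalDegree_finsetProd _ _).trans ?_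
  rw [← h1]
  apply Finset.sum_le_sum
  intro i _
  refine (totalDegree_pow _ _).trans ?_
  exact (Nat.mul_le_mul_left _ (totalDegree_YY k i)).trans (by rw [mul_one])

lemma D_P_nonempty (c : Fin 4) : (V.D (BJ (Fin 4) k) c : Set (PX k)).Nonempty :=
  D_nonempty (BJ (Fin 4) k) c (fun _ => (1 : k)) rfl (fun f hf => aeval_YY k f hf _)

/-- The degree bound for vector fields on projective space. -/
lemma bound [IsIntegral (PX k)] (E : VectorField (V.str (BJ (Fin 4) k)) ⊤)
    (P : Fin 4 → MvPolynomial (Fin 3) k)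
    (hP : ∀ a, E.D _ le_top (fr (BJ (Fin 4) k) 0 a) = ev0 k (P a)) (a : Fin 4) :
    (X 0 * P a - YY a * P 1).totalDegree ≤ 2 := by
  set D0 := V.D (BJ (Fin 4) k) 0 with hD0
  set D1 := V.D (BJ (Fin 4) k) 1 with hD1
  have h0 : D0 ⊓ D1 ≤ D0 := inf_le_left
  have h1 : D0 ⊓ D1 ≤ D1 := inf_le_right
  have hne : ((D0 ⊓ D1 : (PX k).Opens) : Set (PX k)).Nonempty :=
    inf_nonempty (D_P_nonempty k 0) (D_P_nonempty k 1)
  obtain ⟨n, F, hF, hFe⟩ := ev_surj (BJ (Fin 4) k) 1
    (E.D _ le_top (fr (BJ (Fin 4) k) 1 a))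
  have e1 := res_fr_mul (BJ (Fin 4) k) 0 1 a (D0 ⊓ D1) h0 h1
  have e2 := congrArg (E.D (D0 ⊓ D1) le_top) e1
  rw [E.leibniz, ← E.res D0 _ le_top h0, ← E.res D1 _ le_top h1, ← E.res D0 _ le_top h0, hP, hP,
    ← hFe] at e2
  have e3 := res_ev (BJ (Fin 4) k) 0 1 (D0 ⊓ D1) h0 h1 hF
  rw [← ev0_deh] at e3
  rw [← ev0_YY k 1] at e1 e2 e3
  rw [← ev0_YY k a] at e1
  have hY1 : (YY 1 : MvPolynomial (Fin 3) k) = X 0 := rfl
  rw [hY1] at e1 e2 e3
  -- the polynomial identity
  have e4 : QT.res h0 (ev0 k (X 0 ^ n * (X 0 * P a - YY a * P 1))) =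
      QT.res h0 (ev0 k (X 0 ^ 2 * aeval YY F)) := by
    simp only [map_mul, map_sub, map_pow]
    rw [e3]
    linear_combination (-(QT.res h0 (ev0 k (X 0))) ^ (n + 1)) * e2 +
      (QT.res h0 (ev0 k (X 0))) ^ n * QT.res h0 (ev0 k (P 1)) * e1
  have e5 := ev0_inj k (res_injective h0 hne e4)
  by_cases hz : X 0 * P a - YY a * P 1 = 0
  · rw [hz]; simp
  have hX : (X 0 ^ n : MvPolynomial (Fin 3) k) ≠ 0 := pow_ne_zero _ (X_ne_zero _)
  have e6 := congrArg totalDegree e5
  rw [totalDegree_mul_of_isDomain hX hz, totalDegree_X_pow] at e6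
  have e7 := totalDegree_mul (X 0 ^ 2) (aeval YY F : MvPolynomial (Fin 3) k)
  rw [totalDegree_X_pow] at e7
  have e8 := totalDegree_deh k hF
  omega

/-- Five pairwise proportional vector fields on projective space are dependent on a chart. -/
lemma dependent [IsIntegral (PX k)] (E : Fin 5 → VectorField (V.str (BJ (Fin 4) k)) ⊤)
    (hE : ∀ m n s t, (E m).D (V.D (BJ (Fin 4) k) 0) le_top s * (E n).D _ le_top t =
      (E m).D _ le_top t * (E n).D _ le_top s) :
    ∃ c : Fin 5 → k, c ≠ 0 ∧ ∀ s, (comb c E).D (V.D (BJ (Fin 4) k) 0) le_top s = 0 := by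
  have h1 : ∀ m a, ∃ f, ev0 k f = (E m).D _ le_top (fr (BJ (Fin 4) k) 0 a) :=
    fun m a => ev0_surj k _
  choose P hP using h1
  obtain ⟨c, hc, hs⟩ := exists_relation P
    (fun m => by
      apply ev0_inj k
      rw [hP, fr_self, map_zero]
      have h2 := (E m).leibniz _ le_top (1 : Reg (PX k) (V.D (BJ (Fin 4) k) 0)) 1
      rw [one_mul, one_mul] at h2
      exact left_eq_add.1 h2)
    (fun m a => bound k (E m) (P m) (fun a => (hP m a).symm) a)
    (fun m n a b => by
      apply ev0_inj k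
      rw [map_mul, map_mul, hP, hP, hP, hP]
      exact hE m n _ _)
  refine ⟨c, hc, ?_⟩
  apply vf_ev_zero (BJ (Fin 4) k) 0 (comb c E)
  intro a
  have h3 := congrArg (ev0 k) (hs a)
  rw [map_sum, map_zero] at h3
  have h4 : (comb c E).D (V.D (BJ (Fin 4) k) 0) le_top (fr (BJ (Fin 4) k) 0 a) =
    ∑ m, QT.const (V.str (BJ (Fin 4) k)) (V.D (BJ (Fin 4) k) 0) (c m) *
      (E m).D (V.D (BJ (Fin 4) k) 0) le_top (fr (BJ (Fin 4) k) 0 a) := rfl
  rw [h4]
  refine Eq.trans (Finset.sum_congr rfl fun m _ => ?_) h3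
  rw [map_mul, hP]
  congr 1
  rw [const_D]
  change _ = chSec (BJ (Fin 4) k) 0 (aeval _ (C (c m)))
  rw [aeval_C]

end P3

end

end Pool.Agent.H953R2.QT
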