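import Pool.Agent.H953R2.QT.LocDer
import Pool.Agent.H953R2.QT.Defs

/-! Derivations of a graded ring act on the structure sheaf of `Proj`. -/

set_option autoImplicit false

open AlgebraicGeometry CategoryTheory TopologicalSpace Opposite

namespace Pool.Agent.H953R2.QT

noncomputable section

variable {A σ : Type} [CommRing A] [SetLike σ A] [AddSubgroupClass σ A]
variable {𝒜 : ℕ → σ} [GradedRing 𝒜]

/-- sections as functions -/
def pv {V : (Proj 𝒜).Opens} (s : Reg (Proj 𝒜) V) (x : Proj 𝒜) (hx : x ∈ V) :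
    HomogeneousLocalization.AtPrime 𝒜
      (HomogeneousIdeal.toIdeal (ProjectiveSpectrum.asHomogeneousIdeal (𝒜 := 𝒜) x)) :=
  s.1 ⟨x, hx⟩

lemma pv_ext {V : (Proj 𝒜).Opens} (s t : Reg (Proj 𝒜) V) (h : ∀ x hx, pv s x hx = pv t x hx) :
    s = t := by
  apply Subtype.ext
  funext x
  exact h x.1 x.2

lemma pv_add {V : (Proj 𝒜).Opens} (s t : Reg (Proj 𝒜) V) (x : Proj 𝒜) (hx : x ∈ V) :
    pv (s + t) x hx = pv s x hx + pv t x hx := rfl

lemma pv_mul {V : (Proj 𝒜).Opens} (s t : Reg (Proj 𝒜) V) (x : Proj 𝒜) (hx : x ∈ V) :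
    pv (s * t) x hx = pv s x hx * pv t x hx := rfl

lemma pv_zero {V : (Proj 𝒜).Opens} (x : Proj 𝒜) (hx : x ∈ V) :
    pv (0 : Reg (Proj 𝒜) V) x hx = 0 := rfl

lemma pv_res {V W : (Proj 𝒜).Opens} (h : W ≤ V) (s : Reg (Proj 𝒜) V) (x : Proj 𝒜) (hx : x ∈ W) :
    pv (res h s) x hx = pv s x (h hx) := rfl

/-- the action of a degree preserving derivation on sections -/
def projD (δ : GDer 𝒜) (V : (Proj 𝒜).Opens) (s : Reg (Proj 𝒜) V) : Reg (Proj 𝒜) V :=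
  ⟨fun x => δ.hl _ (s.1 x), by
    intro x
    obtain ⟨W, hx, i, n, a, b, hb, h⟩ := s.2 x
    refine ⟨W, hx, i, n + n, ⟨δ.d a * b - a * δ.d b,
      sub_mem (SetLike.mul_mem_graded (δ.mem _ _ a.2) b.2)
      (SetLike.mul_mem_graded a.2 (δ.mem _ _ b.2))⟩,
      ⟨b * b, SetLike.mul_mem_graded b.2 b.2⟩, fun y => ?_, fun y => ?_⟩
    · exact (ProjectiveSpectrum.asHomogeneousIdeal (𝒜 := 𝒜) y.1).toIdeal.primeCompl.mul_mem
        (hb y) (hb y)
    · exact (congrArg (δ.hl _) (h y)).trans rfl⟩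

lemma pv_projD (δ : GDer 𝒜) (V : (Proj 𝒜).Opens) (s : Reg (Proj 𝒜) V) (x : Proj 𝒜) (hx : x ∈ V) :
    pv (projD δ V s) x hx = δ.hl _ (pv s x hx) := rfl

lemma projD_add (δ : GDer 𝒜) (V : (Proj 𝒜).Opens) (s t : Reg (Proj 𝒜) V) :
    projD δ V (s + t) = projD δ V s + projD δ V t := by
  apply pv_ext
  intro x hx
  rw [pv_add, pv_projD, pv_add, δ.hl_add, pv_projD, pv_projD]

lemma projD_mul (δ : GDer 𝒜) (V : (Proj 𝒜).Opens) (s t : Reg (Proj 𝒜) V) :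
    projD δ V (s * t) = s * projD δ V t + t * projD δ V s := by
  apply pv_ext
  intro x hx
  rw [pv_add, pv_projD, pv_mul, δ.hl_mul, pv_mul, pv_mul, pv_projD, pv_projD]

lemma projD_res (δ : GDer 𝒜) {V W : (Proj 𝒜).Opens} (h : W ≤ V) (s : Reg (Proj 𝒜) V) :
    res h (projD δ V s) = projD δ W (res h s) := rfl

end

end Pool.Agent.H953R2.QT
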