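import Pool.Agent.Helper198.SchP
import Pool.Agent.H953R2.QT.ProjDer

/-! The quadric `x_0^2 + x_1 x_2 + x_3 x_4 = 0`. -/

set_option autoImplicit false

open AlgebraicGeometry CategoryTheory TopologicalSpace Opposite MvPolynomial
open Pool.Agent.Helper198.Sch

namespace Pool.Agent.H953R2.QT

attribute [local instance] MvPolynomial.gradedAlgebra

noncomputable section

variable (k : Type) [Field k]

/-- the quadratic form -/
def qq : MvPolynomial (Fin 5) k := X 0 ^ 2 + X 1 * X 2 + X 3 * X 4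

lemma qq_hom : (qq k).IsHomogeneous 2 := by
  unfold qq
  refine ((isHomogeneous_X_pow (R := k) (0 : Fin 5) 2).add ?_).add ?_
  · exact (isHomogeneous_X k (1 : Fin 5)).mul (isHomogeneous_X k (2 : Fin 5))
  · exact (isHomogeneous_X k (3 : Fin 5)).mul (isHomogeneous_X k (4 : Fin 5))

/-- the homogeneous ideal of the quadric -/
def QJ : HI (Fin 5) k := HI.ofSet {qq k} (fun f hf => ⟨2, by rw [hf]; exact qq_hom k⟩)

lemma QJ_toIdeal : (QJ k).toIdeal = Ideal.span {qq k} := rfl

/-- A labelling of the variables adapted to the chart `x_c ≠ 0`. -/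
structure Lab where
  c : Fin 5
  c' : Fin 5
  a : Fin 5
  b : Fin 5

/-- the four labellings -/
def lab : Fin 4 → Lab :=
  ![⟨1, 2, 3, 4⟩, ⟨2, 1, 3, 4⟩, ⟨3, 4, 1, 2⟩, ⟨4, 3, 1, 2⟩]

lemma lab_c (i : Fin 4) : (lab i).c = i.succ := by
  fin_cases i <;> rfl

lemma lab_cases (i : Fin 4) (s : Fin 5) :
    s = 0 ∨ s = (lab i).c ∨ s = (lab i).c' ∨ s = (lab i).a ∨ s = (lab i).b := by
  revert s; fin_cases i <;> decide

/-- the value of the coordinates on the chart `x_c = 1` in terms of three free coordinates -/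
def uu {E : Type} [CommRing E] (i : Fin 4) (x y z : E) (s : Fin 5) : E :=
  if s = 0 then x else if s = (lab i).c then 1 else if s = (lab i).c' then -(x ^ 2 + y * z)
    else if s = (lab i).a then y else z

lemma uu_0 {E : Type} [CommRing E] (i : Fin 4) (x y z : E) : uu i x y z 0 = x := by
  simp [uu]

lemma uu_c {E : Type} [CommRing E] (i : Fin 4) (x y z : E) : uu i x y z (lab i).c = 1 := by
  fin_cases i <;> simp [uu, lab]

lemma uu_c' {E : Type} [CommRing E] (i : Fin 4) (x y z : E) :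
    uu i x y z (lab i).c' = -(x ^ 2 + y * z) := by
  fin_cases i <;> simp [uu, lab]

lemma uu_a {E : Type} [CommRing E] (i : Fin 4) (x y z : E) : uu i x y z (lab i).a = y := by
  fin_cases i <;> simp [uu, lab]

lemma uu_b {E : Type} [CommRing E] (i : Fin 4) (x y z : E) : uu i x y z (lab i).b = z := by
  fin_cases i <;> simp [uu, lab]

/-- the quadric equation for a point `u` -/
lemma aeval_qq {E : Type} [CommRing E] [Algebra k E] (u : Fin 5 → E) :
    aeval u (qq k) = u 0 ^ 2 + u 1 * u 2 + u 3 * u 4 := by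
  simp [qq]

lemma sat_lab {E : Type} [CommRing E] (u : Fin 5 → E) (i : Fin 4) :
    u 0 ^ 2 + u 1 * u 2 + u 3 * u 4 = u 0 ^ 2 + u (lab i).c * u (lab i).c' +
      u (lab i).a * u (lab i).b := by
  fin_cases i <;> simp [lab] <;> ring

lemma aeval_uu {E : Type} [CommRing E] [Algebra k E] (i : Fin 4) (x y z : E) :
    ∀ f ∈ (QJ k).toIdeal, aeval (uu i x y z) f = 0 := by
  apply aeval_ofSet
  intro f hf
  rw [Set.mem_singleton_iff.1 hf, aeval_qq, sat_lab _ i, uu_0, uu_c, uu_c', uu_a, uu_b]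
  ring

/-- chart ring to polynomial ring -/
def chTo (i : Fin 4) : Ch (QJ k) (lab i).c →ₐ[k] MvPolynomial (Fin 3) k :=
  chLift (QJ k) (lab i).c (uu i (X 0) (X 1) (X 2)) (uu_c _ _ _ _) (aeval_uu k i _ _ _)

/-- polynomial ring to chart ring -/
def chFrom (i : Fin 4) : MvPolynomial (Fin 3) k →ₐ[k] Ch (QJ k) (lab i).c :=
  aeval ![frac (QJ k) (lab i).c 0, frac (QJ k) (lab i).c (lab i).a,
    frac (QJ k) (lab i).c (lab i).b]

lemma chTo_frac (i : Fin 4) (s : Fin 5) : chTo k i (frac (QJ k) (lab i).c s) =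
    uu i (X 0) (X 1) (X 2) s := chLift_frac _ _ _ _ _ _

lemma frac_rel (i : Fin 4) : frac (QJ k) (lab i).c (lab i).c' =
    -(frac (QJ k) (lab i).c 0 ^ 2 + frac (QJ k) (lab i).c (lab i).a *
      frac (QJ k) (lab i).c (lab i).b) := by
  have h := aeval_frac_eq_zero (QJ k) (lab i).c (qq k) (mem_ofSet rfl)
  rw [aeval_qq, sat_lab _ i, frac_self, one_mul] at h
  linear_combination h

/-- the chart ring is a polynomial ring -/
def chEquiv (i : Fin 4) : Ch (QJ k) (lab i).c ≃ₐ[k] MvPolynomial (Fin 3) k :=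
  AlgEquiv.ofAlgHom (chTo k i) (chFrom k i)
    (by
      apply MvPolynomial.algHom_ext
      intro j
      rw [AlgHom.comp_apply, AlgHom.id_apply, chFrom, aeval_X]
      fin_cases j
      · change chTo k i (frac (QJ k) (lab i).c 0) = _
        rw [chTo_frac, uu_0]; rfl
      · change chTo k i (frac (QJ k) (lab i).c (lab i).a) = _
        rw [chTo_frac, uu_a]; rfl
      · change chTo k i (frac (QJ k) (lab i).c (lab i).b) = _
        rw [chTo_frac, uu_b]; rfl)
    (by
      apply ch_algHom_ext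
      intro s
      rw [AlgHom.comp_apply, AlgHom.id_apply, chTo_frac]
      have h0 : chFrom k i (X 0) = frac (QJ k) (lab i).c 0 := by rw [chFrom, aeval_X]; rfl
      have h1 : chFrom k i (X 1) = frac (QJ k) (lab i).c (lab i).a := by
        rw [chFrom, aeval_X]; rfl
      have h2 : chFrom k i (X 2) = frac (QJ k) (lab i).c (lab i).b := by
        rw [chFrom, aeval_X]; rfl
      rcases lab_cases i s with h | h | h | h | h <;> rw [h]
      · rw [uu_0, h0]
      · rw [uu_c, map_one, frac_self]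
      · rw [uu_c', map_neg, map_add, map_pow, map_mul, h0, h1, h2, frac_rel]
      · rw [uu_a, h1]
      · rw [uu_b, h2])

instance (i : Fin 4) : IsDomain (Ch (QJ k) (lab i).c) :=
  (chEquiv k i).toMulEquiv.isDomain

/-- The quadric. -/
abbrev QX : Scheme.{0} := V (QJ k)

lemma exists_lab (x : QX k) : ∃ i, x ∈ V.D (QJ k) (lab i).c := by
  obtain ⟨s, hs⟩ := V.exists_mem_D (QJ k) x
  by_cases h0 : s = 0
  · subst h0
    by_contra hcon
    push Not at hcon
    rw [V.mem_D_iff] at hs
    apply hs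
    have h1 : ∀ i : Fin 4, gen (QJ k) i.succ ∈
        ProjectiveSpectrum.asHomogeneousIdeal (𝒜 := qgrad (QJ k).toIdeal) x := by
      intro i
      have := hcon i
      rw [V.mem_D_iff, lab_c, not_not] at this
      exact this
    have h2 : gen (QJ k) 0 ^ 2 + gen (QJ k) 1 * gen (QJ k) 2 + gen (QJ k) 3 * gen (QJ k) 4 = 0 := by
      have : Ideal.Quotient.mk (QJ k).toIdeal (qq k) = 0 :=
        Ideal.Quotient.eq_zero_iff_mem.2 (mem_ofSet rfl)
      rw [qq, map_add, map_add, map_pow, map_mul, map_mul] at this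
      exact this
    have h3 : gen (QJ k) 0 ^ 2 ∈
        (ProjectiveSpectrum.asHomogeneousIdeal (𝒜 := qgrad (QJ k).toIdeal) x).toIdeal := by
      have h4 : gen (QJ k) 0 ^ 2 = -(gen (QJ k) 1 * gen (QJ k) 2 + gen (QJ k) 3 * gen (QJ k) 4) := by
        linear_combination h2
      rw [h4]
      refine neg_mem (add_mem ?_ ?_)
      · exact Ideal.mul_mem_right _ _ (h1 0)
      · exact Ideal.mul_mem_right _ _ (h1 2)
    exact (ProjectiveSpectrum.isPrime (𝒜 := qgrad (QJ k).toIdeal) x).mem_of_pow_mem _ h3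
  · obtain ⟨i, rfl⟩ := Fin.exists_succ_eq.2 h0
    exact ⟨i, by rw [lab_c]; exact hs⟩

lemma frac_ne_zero (i j : Fin 4) : frac (QJ k) (lab i).c (lab j).c ≠ 0 := by
  intro h
  have h1 := congrArg (chTo k i) h
  rw [chTo_frac, map_zero] at h1
  rcases lab_cases i (lab j).c with h2 | h2 | h2 | h2 | h2
  · rw [lab_c] at h2
    exact Fin.succ_ne_zero j h2
  · rw [h2, uu_c] at h1
    exact one_ne_zero h1
  · rw [h2, uu_c'] at h1
    have h3 := congrArg (eval (fun _ => (1 : k))) h1
    have h4 := congrArg (eval (![1, 0, 0] : Fin 3 → k)) h1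
    simp at h4
  · rw [h2, uu_a] at h1
    exact X_ne_zero _ h1
  · rw [h2, uu_b] at h1
    exact X_ne_zero _ h1

lemma integral_QX : IsIntegral (QX k) := by
  apply V.isIntegral_of_charts (QJ k) (fun i => (lab i).c) (exists_lab k) (fun i => inferInstance)
    (V.chart (QJ k) (lab 0).c ⟨⊥, Ideal.isPrime_bot⟩)
  intro i
  rw [V.chart_mem_D]
  exact fun h => frac_ne_zero k 0 i ((Ideal.mem_bot).1 h)

end

end Pool.Agent.H953R2.QT
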