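import Pool.Agent.H953R2.QT.Quadric

/-! The quadric is smooth and projective. -/

set_option autoImplicit false

open AlgebraicGeometry CategoryTheory TopologicalSpace Opposite MvPolynomial
open Pool.Agent.Helper198.Sch

namespace Pool.Agent.H953R2.QT

attribute [local instance] MvPolynomial.gradedAlgebra

noncomputable section

section poly

variable (R : Type) [CommRing R]

/-- no relations -/
def noRel : PEmpty.{1} → MvPolynomial (Fin 3) R := fun a => a.elim

/-- the presentation of the polynomial ring -/
def presP : Algebra.PreSubmersivePresentation R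
    (MvPolynomial (Fin 3) R ⧸ Ideal.span (Set.range (noRel R))) (Fin 3) PEmpty.{1} :=
  Algebra.PreSubmersivePresentation.naive (v := noRel R) (fun a => a.elim)
    (fun a => a.elim)

/-- the quotient by no relations is the polynomial ring -/
def quotE : (MvPolynomial (Fin 3) R ⧸ Ideal.span (Set.range (noRel R))) ≃ₐ[R]
    MvPolynomial (Fin 3) R :=
  (Ideal.quotientEquivAlgOfEq R (show Ideal.span (Set.range (noRel R)) = ⊥ by
    rw [Set.range_eq_empty, Ideal.span_empty])).trans (AlgEquiv.quotientBot R _)

lemma smooth_poly : Algebra.IsStandardSmoothOfRelativeDimension 3 R (MvPolynomial (Fin 3) R) := by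
  have h1 : Algebra.IsStandardSmoothOfRelativeDimension 3 R
      (MvPolynomial (Fin 3) R ⧸ Ideal.span (Set.range (noRel R))) := by
    let P : Algebra.SubmersivePresentation R
      (MvPolynomial (Fin 3) R ⧸ Ideal.span (Set.range (noRel R))) (Fin 3) PEmpty.{1} :=
      { presP R with
        jacobian_isUnit := by
          rw [Algebra.PreSubmersivePresentation.jacobian_eq_jacobiMatrix_det,
            Matrix.det_isEmpty, map_one]
          exact isUnit_one }
    apply P.isStandardSmoothOfRelativeDimension
    simp [Algebra.Presentation.dimension]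
  exact Algebra.IsStandardSmoothOfRelativeDimension.of_algEquiv 3 (quotE R)

end poly

variable (k : Type) [Field k]

lemma smooth_QX : SmoothOfRelativeDimension 3 (V.str (QJ k)) := by
  apply IsZariskiLocalAtSource.of_openCover
    (V.coverOf (QJ k) (fun i => (lab i).c) (exists_lab k)).openCover
  intro (i : Fin 4)
  change SmoothOfRelativeDimension 3 (V.chart (QJ k) (lab i).c ≫ V.str (QJ k))
  rw [V.chart_str, HasRingHomProperty.Spec_iff (P := @SmoothOfRelativeDimension 3)]
  apply RingHom.locally_of
  · exact RingHom.isStandardSmoothOfRelativeDimension_respectsIso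
  · have h1 := smooth_poly k
    have h2 : Algebra.IsStandardSmoothOfRelativeDimension 3 k (Ch (QJ k) (lab i).c) :=
      Algebra.IsStandardSmoothOfRelativeDimension.of_algEquiv 3 (chEquiv k i).symm
    exact (RingHom.isStandardSmoothOfRelativeDimension_algebraMap 3).2 h2

lemma variety_QX : IsSmoothProjectiveVariety 3 (V.str (QJ k)) where
  integral := integral_QX k
  smooth := smooth_QX k
  projective := by
    have h : IsClosedImmersion (emb (QJ k) (Equiv.refl (Fin 5))) := inferInstance
    exact ⟨4, emb (QJ k) (Equiv.refl (Fin 5)), h, emb_str (QJ k) (Equiv.refl (Fin 5))⟩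

end

end Pool.Agent.H953R2.QT
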