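import Pool.Agent.H953R2.QT.Const

/-! Combinations and transport of vector fields. -/

set_option autoImplicit false

open AlgebraicGeometry CategoryTheory TopologicalSpace Opposite

namespace Pool.Agent.H953R2.QT

noncomputable section

variable {k : Type} [Field k] {X Y : Scheme.{0}} {p : X ⟶ Spec (CommRingCat.of k)}
  {q : Y ⟶ Spec (CommRingCat.of k)}

lemma res_trans {U V W : X.Opens} (h : W ≤ V) (h' : V ≤ U) (a : Reg X U) :
    QT.res h (QT.res h' a) = QT.res (h.trans h') a := by
  unfold QT.res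
  rw [← RingHom.comp_apply, ← CommRingCat.hom_comp, ← X.presheaf.map_comp]
  rfl

lemma res_self {U : X.Opens} (a : Reg X U) (h : U ≤ U) : QT.res h a = a := by
  unfold QT.res
  have : X.presheaf.map (homOfLE h).op = 𝟙 _ := X.presheaf.map_id _
  rw [this]
  rfl

/-- linear combination of vector fields -/
def comb {ι : Type} [Fintype ι] {U : X.Opens} (c : ι → k) (E : ι → VectorField p U) :
    VectorField p U where
  D W h s := ∑ i, QT.const p W (c i) * (E i).D W h s
  add W h a b := by
    rw [← Finset.sum_add_distrib]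
    exact Finset.sum_congr rfl fun i _ => by rw [(E i).add, mul_add]
  leibniz W h a b := by
    rw [Finset.mul_sum, Finset.mul_sum, ← Finset.sum_add_distrib]
    exact Finset.sum_congr rfl fun i _ => by rw [(E i).leibniz]; ring
  const W h r := by
    apply Finset.sum_eq_zero
    intro i _
    rw [(E i).const, mul_zero]
  res V W h hW a := by
    rw [map_sum]
    refine Finset.sum_congr rfl fun i _ => ?_
    rw [map_mul, (E i).res, res_const]

/-- the pullback of functions -/
def pb (f : X ⟶ Y) (V : Y.Opens) : Reg Y V →+* Reg X (f ⁻¹ᵁ V) := (f.app V).hom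

lemma pb_bij (e : X ≅ Y) (V : Y.Opens) : Function.Bijective (pb e.hom V) :=
  ConcreteCategory.bijective_of_isIso (e.hom.app V)

lemma pb_const (f : X ⟶ Y) (h : f ≫ q = p) (V : Y.Opens) (r : k) :
    pb f V (QT.const q V r) = QT.const p (f ⁻¹ᵁ V) r := by
  subst h
  unfold pb QT.const
  rw [RingHom.comp_apply, RingHom.comp_apply, ← RingHom.comp_apply, ← CommRingCat.hom_comp,
    Scheme.Hom.app_eq_appLE, Scheme.Hom.appLE_comp_appLE]

lemma pb_res (f : X ⟶ Y) {V W : Y.Opens} (h : W ≤ V) (h' : f ⁻¹ᵁ W ≤ f ⁻¹ᵁ V) (a : Reg Y V) :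
    pb f W (QT.res h a) = QT.res h' (pb f V a) := by
  unfold pb QT.res
  rw [← RingHom.comp_apply, ← CommRingCat.hom_comp, ← RingHom.comp_apply, ← CommRingCat.hom_comp,
    Scheme.Hom.naturality]
  rfl

/-- transport of a vector field along an isomorphism -/
def transpD (e : X ≅ Y) (E : VectorField p ⊤) (V : Y.Opens) (s : Reg Y V) : Reg Y V :=
  (Equiv.ofBijective _ (pb_bij e V)).symm (E.D (e.hom ⁻¹ᵁ V) le_top (pb e.hom V s))

lemma pb_transpD (e : X ≅ Y) (E : VectorField p ⊤) (V : Y.Opens) (s : Reg Y V) :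
    pb e.hom V (transpD e E V s) = E.D (e.hom ⁻¹ᵁ V) le_top (pb e.hom V s) :=
  (Equiv.ofBijective _ (pb_bij e V)).apply_symm_apply _

/-- transport of a vector field along an isomorphism -/
def transp (e : X ≅ Y) (h : e.hom ≫ q = p) (E : VectorField p ⊤) : VectorField q ⊤ where
  D V _ s := transpD e E V s
  add V _ a b := by
    apply (pb_bij e V).1
    rw [map_add, pb_transpD, pb_transpD, pb_transpD, map_add, E.add]
  leibniz V _ a b := by
    apply (pb_bij e V).1
    rw [map_add, map_mul, map_mul, pb_transpD, pb_transpD, pb_transpD, map_mul, E.leibniz]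
  const V _ r := by
    apply (pb_bij e V).1
    rw [pb_transpD, pb_const e.hom h, E.const, map_zero]
  res V W _ hW a := by
    apply (pb_bij e W).1
    have h' : e.hom ⁻¹ᵁ W ≤ e.hom ⁻¹ᵁ V := fun x hx => hW hx
    rw [pb_transpD, pb_res e.hom hW h', pb_transpD, pb_res e.hom hW h', E.res]

lemma pb_transp (e : X ≅ Y) (h : e.hom ≫ q = p) (E : VectorField p ⊤) (V : Y.Opens)
    (s : Reg Y V) : pb e.hom V ((transp e h E).D V le_top s) =
      E.D (e.hom ⁻¹ᵁ V) le_top (pb e.hom V s) :=
  pb_transpD e E V s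

lemma pb_comb_transp {ι : Type} [Fintype ι] (e : X ≅ Y) (h : e.hom ≫ q = p) (c : ι → k)
    (E : ι → VectorField p ⊤) (V : Y.Opens) (s : Reg Y V) :
    pb e.hom V ((comb c (fun i => transp e h (E i))).D V le_top s) =
      (comb c E).D (e.hom ⁻¹ᵁ V) le_top (pb e.hom V s) := by
  unfold comb
  rw [map_sum]
  refine Finset.sum_congr rfl fun i _ => ?_
  rw [map_mul, pb_const e.hom h, pb_transp]

/-- restriction is injective on integral schemes -/
lemma res_injective [IsIntegral X] {U W : X.Opens} (h : W ≤ U) (hW : (W : Set X).Nonempty) :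
    Function.Injective (QT.res h) := by
  have : Nonempty W := hW.to_subtype
  exact map_injective_of_isIntegral X (homOfLE h)

lemma isDomain_Reg [IsIntegral X] {W : X.Opens} (hW : (W : Set X).Nonempty) :
    IsDomain (Reg X W) := by
  have : Nonempty W := hW.to_subtype
  infer_instance

lemma inf_nonempty [IsIntegral X] {U W : X.Opens} (hU : (U : Set X).Nonempty)
    (hW : (W : Set X).Nonempty) : ((U ⊓ W : X.Opens) : Set X).Nonempty :=
  nonempty_preirreducible_inter U.isOpen W.isOpen hU hW

/-- A vector field which kills all functions on an affine open set kills all functions on smaller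
basic open sets. -/
lemma vf_local (E : VectorField p ⊤) {U : X.Opens} (hU : IsAffineOpen U)
    (hE : ∀ s : Reg X U, E.D U le_top s = 0) (O : X.Opens) (x : X) (hx : x ∈ U) (hO : x ∈ O) :
    ∃ W : X.Opens, x ∈ W ∧ W ≤ O ∧ ∀ s : Reg X W, E.D W le_top s = 0 := by
  obtain ⟨f, hf, hxf⟩ := hU.exists_basicOpen_le ⟨x, hO⟩ hx
  refine ⟨X.basicOpen f, hxf, hf, fun s => ?_⟩
  have hle : X.basicOpen f ≤ U := X.basicOpen_le f
  have := hU.isLocalization_basicOpen f
  obtain ⟨⟨a, ⟨_, n, rfl⟩⟩, ha⟩ := IsLocalization.surj (Submonoid.powers f) s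
  have hfu : IsUnit (QT.res hle f) := RingedSpace.isUnit_res_basicOpen _ f
  have h1 : s * QT.res hle f ^ n = QT.res hle a := by
    have h2 : s * QT.res hle (f ^ n) = QT.res hle a := ha
    rwa [map_pow] at h2
  have h3 := congrArg (E.D (X.basicOpen f) le_top) h1
  rw [← E.res U _ le_top hle, hE, map_zero, E.leibniz, ← map_pow, ← E.res U _ le_top hle, hE,
    map_zero, mul_zero, zero_add, map_pow] at h3
  exact (hfu.pow n).mul_right_eq_zero.1 h3

end

end Pool.Agent.H953R2.QT
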